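import Pool.Agent.Helper78.DT.Core

/-!
# Averages and probabilities on finite types: basic rules
-/

namespace Pool.Agent.Helper78.DT

open scoped Classical

variable {Ω Ω' ι : Type*} [Fintype Ω] [Fintype Ω']

theorem av_mono {F G : Ω → ℝ} (h : ∀ w, F w ≤ G w) : av F ≤ av G := by
  unfold av
  exact div_le_div_of_nonneg_right (Finset.sum_le_sum fun w _ => h w) (Nat.cast_nonneg _)

theorem av_congr {F G : Ω → ℝ} (h : ∀ w, F w = G w) : av F = av G := by
  rw [show F = G from funext h]

theorem av_add (F G : Ω → ℝ) : av (fun w => F w + G w) = av F + av G := by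
  unfold av
  rw [Finset.sum_add_distrib, add_div]

theorem av_sub (F G : Ω → ℝ) : av (fun w => F w - G w) = av F - av G := by
  unfold av
  rw [Finset.sum_sub_distrib, sub_div]

theorem av_neg (F : Ω → ℝ) : av (fun w => - F w) = - av F := by
  unfold av
  rw [Finset.sum_neg_distrib, neg_div]

theorem av_mul_left (c : ℝ) (F : Ω → ℝ) : av (fun w => c * F w) = c * av F := by
  unfold av
  rw [← Finset.mul_sum, mul_div_assoc]

theorem av_mul_right (F : Ω → ℝ) (c : ℝ) : av (fun w => F w * c) = av F * c := by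
  unfold av
  rw [← Finset.sum_mul, div_mul_eq_mul_div]

theorem av_sum (s : Finset ι) (F : ι → Ω → ℝ) :
    av (fun w => ∑ i ∈ s, F i w) = ∑ i ∈ s, av (F i) := by
  unfold av
  rw [Finset.sum_comm, Finset.sum_div]

theorem av_const [Nonempty Ω] (c : ℝ) : av (fun _ : Ω => c) = c := by
  unfold av
  rw [Finset.sum_const, nsmul_eq_mul, Finset.card_univ]
  field_simp

theorem av_nonneg {F : Ω → ℝ} (h : ∀ w, 0 ≤ F w) : 0 ≤ av F := by
  unfold av
  exact div_nonneg (Finset.sum_nonneg fun w _ => h w) (Nat.cast_nonneg _)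

theorem av_le_of_le {F : Ω → ℝ} {c : ℝ} (hc : 0 ≤ c) (h : ∀ w, F w ≤ c) : av F ≤ c := by
  rcases isEmpty_or_nonempty Ω with h0 | h0
  · unfold av
    simpa using hc
  · calc av F ≤ av (fun _ : Ω => c) := av_mono h
      _ = c := av_const c

theorem abs_av_le (F : Ω → ℝ) : |av F| ≤ av fun w => |F w| := by
  unfold av
  rw [abs_div, Nat.abs_cast]
  exact div_le_div_of_nonneg_right (Finset.abs_sum_le_sum_abs _ _) (Nat.cast_nonneg _)

/-- Fubini. -/
theorem av_prod (F : Ω × Ω' → ℝ) : av F = av fun a => av fun b => F (a, b) := by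
  unfold av
  rw [Fintype.sum_prod_type, Fintype.card_prod, Nat.cast_mul, ← Finset.sum_div, div_div,
    mul_comm (Fintype.card Ω : ℝ)]

theorem av_comm (F : Ω → Ω' → ℝ) :
    (av fun a => av fun b => F a b) = av fun b => av fun a => F a b := by
  unfold av
  rw [← Finset.sum_div, ← Finset.sum_div, Finset.sum_comm, div_div, div_div, mul_comm]

theorem av_equiv (e : Ω ≃ Ω') (F : Ω' → ℝ) : (av fun a => F (e a)) = av F := by
  unfold av
  rw [e.sum_comp F, Fintype.card_congr e]

theorem pr_eq_av (E : Ω → Prop) : pr E = av fun w => if E w then 1 else 0 := rfl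

theorem pr_mono {E E' : Ω → Prop} (h : ∀ w, E w → E' w) : pr E ≤ pr E' := by
  refine av_mono fun w => ?_
  by_cases h1 : E w
  · rw [if_pos h1, if_pos (h w h1)]
  · rw [if_neg h1]
    split_ifs <;> norm_num

theorem pr_congr {E E' : Ω → Prop} (h : ∀ w, E w ↔ E' w) : pr E = pr E' := by
  rw [show E = E' from funext fun w => propext (h w)]

theorem pr_nonneg (E : Ω → Prop) : 0 ≤ pr E :=
  av_nonneg fun w => by split_ifs <;> norm_num

theorem pr_le_one (E : Ω → Prop) : pr E ≤ 1 :=
  av_le_of_le zero_le_one fun w => by split_ifs <;> norm_num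

theorem pr_or_le (E E' : Ω → Prop) : pr (fun w => E w ∨ E' w) ≤ pr E + pr E' := by
  unfold pr
  rw [← av_add]
  refine av_mono fun w => ?_
  by_cases h1 : E w <;> by_cases h2 : E' w <;> simp [h1, h2]

/-- The union bound. -/
theorem pr_exists_le (s : Finset ι) (E : ι → Ω → Prop) :
    pr (fun w => ∃ i ∈ s, E i w) ≤ ∑ i ∈ s, pr (E i) := by
  unfold pr
  rw [← av_sum]
  refine av_mono fun w => ?_
  split_ifs with h
  · obtain ⟨i, hi, h⟩ := h
    have : (if E i w then (1 : ℝ) else 0) ≤ ∑ j ∈ s, if E j w then (1 : ℝ) else 0 :=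
      Finset.single_le_sum (f := fun j => if E j w then (1 : ℝ) else 0)
        (fun j _ => by split_ifs <;> norm_num) hi
    rwa [if_pos h] at this
  · exact Finset.sum_nonneg fun j _ => by split_ifs <;> norm_num

theorem pr_not [Nonempty Ω] (E : Ω → Prop) : pr (fun w => ¬ E w) = 1 - pr E := by
  have : pr (fun w => ¬ E w) = av fun w => (1 : ℝ) - if E w then 1 else 0 := by
    refine av_congr fun w => ?_
    by_cases h : E w <;> simp [h]
  rw [this, av_sub, av_const, pr]

theorem pr_eq_card (E : Ω → Prop) :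
    pr E = (Nat.card {w // E w} : ℝ) / (Fintype.card Ω : ℝ) := by
  unfold pr av
  rw [Nat.card_eq_fintype_card, Fintype.card_subtype, Finset.sum_boole]

theorem pr_le_add_of_imp {E E' B : Ω → Prop} (h : ∀ w, E w → E' w ∨ B w) : pr E ≤ pr E' + pr B :=
  (pr_mono h).trans (pr_or_le E' B)

theorem pr_equiv (e : Ω ≃ Ω') (E : Ω' → Prop) : (pr fun a => E (e a)) = pr E :=
  av_equiv e fun w => if E w then 1 else 0

/-- Markov's inequality. -/
theorem pr_ge_le {F : Ω → ℝ} (h : ∀ w, 0 ≤ F w) {c : ℝ} (hc : 0 < c) :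
    pr (fun w => c ≤ F w) ≤ av F / c := by
  rw [le_div_iff₀ hc, pr, ← av_mul_right]
  refine av_mono fun w => ?_
  split_ifs with h1
  · simpa using h1
  · simpa using h w

end Pool.Agent.Helper78.DT
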