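import Pool.Agent.Helper78.DT.Core

/-!
# The parameters
-/

namespace Pool.Agent.Helper78.DT

/-- An assignment to the coins, as a function on all numbers. -/
def cf {n : ℕ} (b : Fin n → Bool) (j : ℕ) : Bool := if h : j < n then b ⟨j, h⟩ else false

/-- The first coins of a function on all numbers. -/
def cut (n : ℕ) (b : ℕ → Bool) (j : ℕ) : Bool := decide (j < n) && b j

/-- The digit `i` of `n` in base `b`. -/
def dg (b n i : ℕ) : ℕ := n / b ^ i % b

/-- The least prime number `p` with `X ≤ p ≤ 2 X` (`0` if there is none). -/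
def np (X : ℕ) : ℕ :=
  ((List.range (2 * X + 1)).find? fun p => decide (X ≤ p ∧ p.Prime)).getD 0

/-- `b ^ n`, cut off at `cap`. -/
def cpw (cap b n : ℕ) : ℕ := (fun y => min cap (y * b))^[n] 1

/-- `L = log₂ N + 2`. -/
def lg (N : ℕ) : ℕ := Nat.log 2 N + 2

/-! The parameters are functions of `L = lg N` (where `N` bounds the number of the coins, of the
stages, and the size of the trees) and of the constants `c` (the error is `1 / L ^ c`), `a`, `β`
(chosen as functions of `c`). -/

/-- the width `t` in one part -/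
def tt (a L : ℕ) : ℕ := Nat.log 2 L / (2 * a + 9)

/-- the width `W` of the terms -/
def WW (c L : ℕ) : ℕ := (c + 9) * L

/-- the number `K` of the parts -/
def KK (c a β L : ℕ) : ℕ := 2 ^ β * (6 * WW c L / (tt a L + 1) + 1)

/-- the number `q` of the strings -/
def qn (c L : ℕ) : ℕ := 2 ^ 16 * L ^ (2 * c + 6)

/-- the first prime `P` -/
def PP (c L : ℕ) : ℕ := np (L ^ (c + 6))

/-- the second prime `R` -/
def RR (c L : ℕ) : ℕ := np (qn c L * PP c L)

/-- the number `d` of the coefficients -/
def dd (a L : ℕ) : ℕ := 2 ^ (tt a L * (2 * a + 8))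

/-- The number of the seeds. -/
def ZZ (c a β L : ℕ) : ℕ :=
  PP c L ^ (tt a L + 2) * RR c L ^ dd a L * (qn c L * PP c L) ^ KK c a β L

/-- The number of the seeds, computed with numbers cut off at `cap`. -/
def Zc (cap c a β L : ℕ) : ℕ :=
  cpw cap (PP c L) (tt a L + 2) * cpw cap (RR c L) (dd a L) *
    cpw cap (qn c L * PP c L) (KK c a β L)

/-- The error for one part: of the generator for lists of width `t`. -/
noncomputable def er (P t s e : ℕ) (η κ δ : ℝ) : ℝ :=
  δ + ((t * s : ℕ) : ℝ) ^ 2 * e / P + (s + 1) * (κ ^ (1 - η) * (2 / η) ^ t)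

end Pool.Agent.Helper78.DT
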