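import Pool.Agent.Helper78.DT.Defs
import Pool.Agent.Helper78.DT.Num

/-!
# The algorithm
-/

namespace Pool.Agent.Helper78.DT

open Pool.Agent.Helper81.CC

/-! ### Running the stages on given coins -/

section
variable {α : Type} [ToData α] (A : Machine α) (x : α)

/-- One step of the stage `i` with the coins `b`. -/
def stp (i : ℕ) (b : ℕ → Bool) (a : List Bool) : List Bool :=
  if 3 ≤ A.act (x, i, a) then a ++ [b (A.act (x, i, a) - 3)] else a

/-- The list of the bits read by the stage `i` with the coins `b`. -/
def hist (i : ℕ) (b : ℕ → Bool) : List Bool := (stp A x i b)^[A.w x] []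

/-- The names of the coins which are read by the stage `i` with the history `a`, without
repetitions and without the names of coins which do not exist. -/
def rd (i : ℕ) (a : List Bool) : List ℕ :=
  (((List.range a.length).map fun k => A.act (x, i, a.take k) - 3).filter
    fun v => decide (v < A.m x)).dedup

/-- The stage `i` with the history `a` reads at most `W` coins, and at most `t` coins in each of
the `K` parts of the partition `h`. -/
def okh (W K t : ℕ) (h : ℕ → ℕ) (i : ℕ) (a : List Bool) : Bool :=
  decide ((rd A x i a).length ≤ W) &&
    (List.range K).all fun j => decide (((rd A x i a).filter fun v => decide (h v = j)).length ≤ t)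

/-- The action of the stage `i` with the coins `b`, replaced by `0` if the stage reads too many
coins. -/
def out (W K t : ℕ) (h : ℕ → ℕ) (b : ℕ → Bool) (i : ℕ) : ℕ :=
  if okh A x W K t h i (hist A x i b) = true then A.act (x, i, hist A x i b) else 0

/-- The result of the run, in which the stages that read too many coins are ignored. -/
def res (W K t : ℕ) (h : ℕ → ℕ) (b : ℕ → Bool) : Bool :=
  match (List.range (A.T x)).find? fun i => decide (out A x W K t h b i ≠ 0) with
  | some i => decide (out A x W K t h b i = 2)
  | none => false

/-- The size of the input, for the algorithm. -/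
def sz (s : α → ℕ) : ℕ := s x + A.m x + A.T x + A.w x

/-- The result of the run for the seed number `i`. -/
def sd (c a β L : ℕ) (i : ℕ) : Bool :=
  let P := PP c L
  let R := RR c L
  let K := KK c a β L
  let t := tt a L
  let d := dd a L
  let As := dg P i
  let θ := dg R (i / P ^ (t + 2))
  let s := dg (qn c L * P) (i / P ^ (t + 2) / R ^ d)
  res A x (WW c L) K t (pt P K t L As) (cut (A.m x) (cn R P K t L d As θ s))

/-- The number of the seeds for the input `x`, for the constants `c`, `a`, `β`, `C`. -/
def zn (s : α → ℕ) (c a β C : ℕ) : ℕ := Zc ((4 * sz A x s + 4) ^ C) c a β (lg (sz A x s))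

/-- The number of the seeds with which the run accepts. -/
def an (s : α → ℕ) (c a β C : ℕ) : ℕ :=
  ((List.range (zn A x s c a β C)).filter fun i => sd A x c a β (lg (sz A x s)) i).length

/-- The approximation: the fraction of the accepted seeds, in units of `1 / lg (s x) ^ c`. -/
def apx (s : α → ℕ) (c a β C : ℕ) : ℕ :=
  (2 * lg (s x) ^ c * an A x s c a β C + zn A x s c a β C) / (2 * zn A x s c a β C)

end

end Pool.Agent.Helper78.DT
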