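import Pool.Agent.Helper78.DT.Goals2
import Pool.Agent.Helper78.DT.Alg

/-!
# Derandomization of decision lists: machines

The statements of the third part, with proofs in words.
-/

namespace Pool.Agent.Helper78.DT

open Pool.Agent.Helper81.CC Pool.Agent.Helper51.ZP
open scoped Classical

/-- The term has at most `t` literals in each of the `K` parts of the partition `h`. -/
noncomputable def bal (K t : ℕ) (h : ℕ → ℕ) {n : ℕ} (e : Tm (Fin n) × Bool) : Bool :=
  decide (∀ j < K, (e.1.filter fun p => h p.1 = j).card ≤ t)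

/-- **HIS.** The history of a stage. (Elementary facts; used in RES and DLM.)

Proof. Call `a` a history of the stage `i` if `∀ k < a.length, 3 ≤ A.act (x, i, a.take k)`. All
`a.take k` are histories, they are different for `k ≤ a.length`, and by `A.tree` there are at most
`w = A.w x` histories; so `a.length + 1 ≤ w`. `[]` is a history, and `stp A x i b a` is a history
if `a` is one: the new element is appended only if `3 ≤ A.act (x, i, a)`. If no step up to the `w`th
one is a fixed point, the length of the `w`th iterate is `w`, impossible; a fixed point of `stp`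
stays, so `hist` is a history with `A.act (x, i, hist ...) < 3`. The elements are the right coins,
as each appended element is `b (A.act (x, i, a) - 3)`, and `a` is an initial segment of the later
ones. Uniqueness: if `a`, `a'` both satisfy the condition, then neither is a proper initial segment
of the other (the action is `< 3` at the end), and at the first place where they differ both are
`b (A.act (x, i, common part) - 3)`, a contradiction. -/
def HisStmt : Prop := ∀ (α : Type) [ToData α] (A : Machine α) (x : α) (i : ℕ),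
  (∀ a : List Bool, (∀ k < a.length, 3 ≤ A.act (x, i, a.take k)) → a.length + 1 ≤ A.w x) ∧
  ∀ (b : ℕ → Bool) (a : List Bool),
    ((∀ k, ∀ h : k < a.length, 3 ≤ A.act (x, i, a.take k) ∧
        a[k] = b (A.act (x, i, a.take k) - 3)) ∧ A.act (x, i, a) < 3) ↔ a = hist A x i b

/-- **RES.** The run with given coins. (May assume `HisStmt`.)

Proof. Let `b = cf r`; then `b j = A.coin r j`, and by HIS `A.Ends x r i a v` iff
`a = hist A x i b` and `v = A.act (x, i, a)` (which is `< 3`). `okh A x W 0 t h i a` holds for
`a = hist ...` and `W ≥ A.w x`: there are no parts, and the length of `rd A x i a` is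
`≤ a.length ≤ A.w x` (`List.length_filter_le`, `List.length_dedup_le` or `dedup_sublist`). So
`out ... i = A.act (x, i, hist A x i b) < 3`, and `res` is `true` iff the first `i < A.T x` with
`out ≠ 0` exists and has `out = 2`. -/
def ResStmt : Prop := ∀ (α : Type) [ToData α] (A : Machine α) (x : α) (W t : ℕ) (h : ℕ → ℕ)
  (r : Fin (A.m x) → Bool), A.w x ≤ W → (res A x W 0 t h (cf r) = true ↔ A.Accepts x r)

/-- **DLM.** The runs of a machine are given by a decision list. (May assume `HisStmt`,
`ResStmt`.)

Proof. Fix `x`, let `n = A.m x`, `w = A.w x`. A leaf of the stage `i` is a list `a` with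
`∀ k < a.length, 3 ≤ A.act (x, i, a.take k)` and `A.act (x, i, a) < 3`; there are at most `w` of
them. For `b : Fin n → Bool` the list `hist A x i (cf b)` is a leaf (HIS). Call a leaf `a`
consistent if `a = hist A x i (cf b)` for some `b`. The term of a leaf is
`T_{i,a} = {(⟨v_k, _⟩, a[k]) | k < a.length, v_k < n}`, where `v_k = A.act (x, i, a.take k) - 3`.
For a consistent leaf no name occurs with two different bits, the names `≥ n` are read as `false`,
`T_{i,a}.card = (rd A x i a).length`, and by HIS for all `b`:
`Sat T_{i,a} b ↔ hist A x i (cf b) = a`; the probability of this event is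
`2 ^ (- T_{i,a}.card)`.
The decision list `f`: for `i = 0, ..., A.T x - 1` all entries
`(T_{i,a}, decide (A.act (x, i, a) = 2))` for the consistent leaves `a` of the stage `i` with
`(rd A x i a).length ≤ W` and `A.act (x, i, a) ≠ 0` (in any order).
(1) clear. (2) The entries of `f.filter (bal K t h)` for the stage `i` are those for the leaves with
`okh A x W K t h i a = true`: the number of the literals of `T_{i,a}` in the part `j` is the number
of the elements of `rd A x i a` in it. For `b` at most one entry of each stage is satisfied, namely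
the one of `a = hist A x i (cf b)`, if this entry is in the list, that is, iff
`out A x W K t h (cf b) i ≠ 0`. So the first satisfied entry belongs to the first stage `i` with
`out ... ≠ 0`, and its label is `decide (out ... = 2)`; if there is none, both sides are `false`.
(3) If for all `i < A.T x` the history of `b` in the stage `i` has `(rd ...).length ≤ W`, then
`ev f b = true` iff `A.Accepts x b`: as in (2) with no condition on the parts (`K = 0`), compare
`res A x W 0 0 h (cf b)` with `res A x (W + A.w x) 0 0 h (cf b)` and use RES. The probability that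
in the stage `i` the history is a leaf with more than `W` names is at most the number of the leaves
times `2 ^ (-W)`, so at most `w / 2 ^ W`; union bound over `i < A.T x`, and
`A.acc x / 2 ^ n = pr (A.Accepts x)` (`pr_eq_card`). -/
def DlmStmt : Prop := ∀ (α : Type) [ToData α] (A : Machine α) (x : α) (W : ℕ),
  ∃ f : DL (Fin (A.m x)),
  (∀ e ∈ f, e.1.card ≤ W) ∧
  (∀ (b : Fin (A.m x) → Bool) (h : ℕ → ℕ) (K t : ℕ),
    ev (f.filter (bal K t h)) b = res A x W K t h (cf b)) ∧
  |pr (fun b : Fin (A.m x) → Bool => ev f b = true) - (A.acc x : ℝ) / 2 ^ A.m x| ≤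
    (A.T x : ℝ) * (A.w x : ℝ) / 2 ^ W

/-- **TOA.** The generator for a given partition. (May assume `GooStmt`, `FooStmt`, `HybStmt`.)

Proof. For good `θ` the generator `G (a, z) = fun v => hb R P d (ext θ) a (hs P e z v)`,
`(a, z) ∈ S = Fin q × Fin P`, satisfies the hypothesis of HYB with the error `er ...` (FOO), so the
average over `s : Fin K → S` differs from `pr (ev f)` by at most `K * er ...`. The bijection
`Fin q × Fin P ≃ Fin (q * P)`, `(a, z) ↦ a * P + z` (`finProdFinEquiv`: there `(a, z) ↦ z + P * a`),
has the inverse `u ↦ (u / P, u % P)`; with `Equiv.arrowCongr`/`Equiv.piCongrRight` and `pr_equiv`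
this is the average over `Fin K → Fin (q * P)`, since `ext s (h v)` is the value at the index
`h v < K`. For bad `θ` the difference is at most `1`; average over `θ` (`av_prod`, GOO). -/
def ToaStmt : Prop := ∀ (n K t e P R d q k s : ℕ) (η κ δ : ℝ),
  P.Prime → R.Prime → 0 < K → 0 < q → q * P ≤ R → n ≤ 2 ^ e →
  2 * k * (t * s) ≤ d → 0 < δ → 16 * (k : ℝ) ^ 2 ≤ q * δ ^ 2 → 2 * ((t * s : ℕ) : ℝ) ≤ δ * R →
  0 < η → η ≤ 1 → 0 < κ → (2 / η) ^ t ≤ s * (κ / 2 ^ t) ^ η →
  ∀ (h : ℕ → ℕ), (∀ v, h v < K) → ∀ f : DL (Fin n),
    (∀ g ∈ f, ∀ j < K, (g.1.filter fun p => h p.1 = j).card ≤ t) →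
    |pr (fun z : (Fin d → Fin R) × (Fin K → Fin (q * P)) =>
        ev f (fun v => hb R P d (ext z.1) (ext z.2 (h v) / P) (hs P e (ext z.2 (h v) % P) v)) =
          true) - pr (fun x => ev f x = true)| ≤
      2 * (2 * (2 * (P : ℝ) + 1) ^ t + 1) ^ s * (1 / 4) ^ k + K * er P t s e η κ δ

/-- **TOB.** Dropping the unbalanced terms. (May assume `BalStmt`.)

Proof. Exchange the averages (`av_prod`, `av_comm`) and use the triangle inequality: the left side
is at most the average over `b : Fin n → Bool` of the probability (over `A`) that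
`ev (f.filter (bal K t (pt ...))) b ≠ ev f b`. Fix `b`. If `b` satisfies no term of `f`, both values
are `false`. Otherwise let `g` be the first satisfied entry of `f`; if it is in the filtered list, it
is the first satisfied entry there, and the values agree. So if the values differ, `g` is not
balanced: for some `j < K` more than `t` literals of `g.1` are in the part `j`. The literals of `g.1`
have different variables (`b` satisfies them); with `U = {the names of g.1} ⊆ ℕ`, `U.card ≤ W`, all
elements `< n ≤ 2 ^ e`, this is the event of BAL. -/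
def TobStmt : Prop := ∀ (n P K t e W : ℕ), P.Prime → 0 < K → K ≤ P → n ≤ 2 ^ e →
  ∀ f : DL (Fin n), Wid W f →
    |pr (fun z : (Fin (t + 2) → Fin P) × (Fin n → Bool) =>
        ev (f.filter (bal K t (pt P K t e (ext z.1)))) z.2 = true) -
      pr (fun x => ev f x = true)| ≤
    (W : ℝ) ^ 2 * e / P + (W.choose (t + 1)) * 2 ^ (t + 1) / (K : ℝ) ^ t

/-- **TOT.** The total error. (May assume `DlmStmt`, `ToaStmt`, `TobStmt`.)

Proof. Let `n = A.m x ≤ 2 ^ e`, `f` from DLM. For each `A' : Fin (t + 2) → Fin P` put
`h = pt P K t e (ext A')` (values `< K`, as `0 < K`) and `f' = f.filter (bal K t h)`; TOA for `f'`.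
With `cn` and DLM (2), the value of `f'` in TOA is
`res A x W K t h (cut n (cn R P K t e d (ext A') (ext θ) (ext s)))`, because `cut n b = cf b'` for
the restriction `b'` of `b` to `Fin n`. Average over `A'` (`av_prod`), then TOB, then DLM (3);
triangle inequality. -/
def TotStmt : Prop := ∀ (α : Type) [ToData α] (A : Machine α) (x : α)
  (W K t e P R d q k s : ℕ) (η κ δ : ℝ),
  P.Prime → R.Prime → 0 < K → K ≤ P → 0 < q → q * P ≤ R → A.m x ≤ 2 ^ e →
  2 * k * (t * s) ≤ d → 0 < δ → 16 * (k : ℝ) ^ 2 ≤ q * δ ^ 2 → 2 * ((t * s : ℕ) : ℝ) ≤ δ * R →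
  0 < η → η ≤ 1 → 0 < κ → (2 / η) ^ t ≤ s * (κ / 2 ^ t) ^ η →
  |pr (fun z : (Fin (t + 2) → Fin P) × (Fin d → Fin R) × (Fin K → Fin (q * P)) =>
      res A x W K t (pt P K t e (ext z.1))
        (cut (A.m x) (cn R P K t e d (ext z.1) (ext z.2.1) (ext z.2.2))) = true) -
    (A.acc x : ℝ) / 2 ^ A.m x| ≤
  (A.T x : ℝ) * (A.w x : ℝ) / 2 ^ W +
    ((W : ℝ) ^ 2 * e / P + (W.choose (t + 1)) * 2 ^ (t + 1) / (K : ℝ) ^ t) +
    2 * (2 * (2 * (P : ℝ) + 1) ^ t + 1) ^ s * (1 / 4) ^ k + K * er P t s e η κ δ

/-- **PTR.** The runs are computed in polynomial time.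

Proof. `A.act` is in `PolyTime` (`Pool.Agent.Helper78.LM.PT_of_comp A.act_poly`), as are `A.m`,
`A.T`, `A.w`. `stp` appends at most one bit, so the iterates have length `≤ A.w (x a)`
(`PolyTime.iterate_bd`). The list of the names: `map` over `range`, `filter`, `dedup` (`dedup` by a
fold, if it is not in the calculus). `okh`, `out`: `all`, `filter`, `length`. `res`: `find?` over
`range` (or `filter` and the head of the list). -/
def PtrStmt : Prop := ∀ (α : Type) [ToData α] (A : Machine α) (γ : Type) [ToData γ] (x : γ → α)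
  (W K t : γ → ℕ) (h : γ → ℕ → ℕ) (b : γ → ℕ → Bool),
  PolyTime x → PolyTime W → PolyTime K → PolyTime t → PolyTime (fun z : γ × ℕ => h z.1 z.2) →
  PolyTime (fun z : γ × ℕ => b z.1 z.2) →
  PolyTime fun a => res A (x a) (W a) (K a) (t a) (h a) (b a)

/-- **PTD.** The algorithm runs in polynomial time. (May assume `PtnStmt`, `PtlStmt`, `PtrStmt`,
`NprStmt`.)

Proof. `sz`, `lg (sz ...)`, `tt`, `WW`, `qn` are clear (`lg` by PTL, division by a constant, powers
with constant exponents). `KK`: `2 ^ β` is a constant. `PP`, `RR`: `np`; they are positive by NPR,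
as `L ≥ 2`. `dd a L = 2 ^ (tt a L * (2 a + 8)) ≤ L`, since `2 ^ Nat.log 2 L ≤ L`. In `sd` the
numbers `P ^ (t + 2)` and `R ^ d` occur only as divisors: `i / P ^ (t + 2)` may be computed as
`i / cpw (i + 1) P (t + 2)` (`cpw cap b n = min cap (b ^ n)` for `1 ≤ cap`, `1 ≤ b`, and if
`i < P ^ (t + 2)` both quotients are `0`). The partition `pt` and the coins `cut n (cn ...)` are in
`PolyTime` by PTN, hence `sd` by PTR. `zn` by PTL, the list `List.range (zn ...)`, the filter and
the length are in the calculus; `apx`: a quotient. -/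
def PtdStmt : Prop := ∀ (α : Type) [ToData α] (A : Machine α) (s : α → ℕ) (c a β C : ℕ),
  PolyTime s → PolyTime fun x => apx A x s c a β C

/-- **BRU.** Brute force, for a bounded number of coins. (May assume `ResStmt`, `PtrStmt`,
`PtlStmt`, `PtnStmt`.)

Proof. For `M : ℕ` let `n = min (A.m x) M`, and `N` the number of the `i < 2 ^ n` for which
`res A x (A.w x) 0 0 (fun _ => 0) (cut (A.m x) fun j => decide (i / 2 ^ j % 2 = 1)) = true`, and
`f x = (2 g N + 2 ^ n) / (2 * 2 ^ n)`, where `g = lg (s x) ^ c`. `f` is in `PolyTime`: the number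
`n` is bounded by the constant `M`, so `2 ^ n = cpw (2 ^ M) 2 n`. If `A.m x ≤ M`, then `N = A.acc x`
by RES and the bijection of `{0, ..., 2^n - 1}` with `Fin n → Bool` by binary digits (`DigStmt` may
also be assumed; or `Nat.testBit`, `BitVec`), and `|f x - g N / 2^n| ≤ 1/2`. -/
def BruStmt : Prop := ∀ (α : Type) [ToData α] (A : Machine α) (s : α → ℕ) (c M : ℕ),
  PolyTime s → ∃ f : α → ℕ, PolyTime f ∧ ∀ x, A.m x ≤ M →
    |(f x : ℝ) / (lg (s x) : ℝ) ^ c - (A.acc x : ℝ) / 2 ^ A.m x| ≤ 1 / (lg (s x) : ℝ) ^ c

/-- **APX.** The approximation. (May assume `TotStmt`, `ParaStmt`, `ParbStmt`, `DigStmt`.)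

Proof. Take `a`, `β`, `L0` from PARA and `C`, `L0'` from PARB, and the maximum of `L0`, `L0'`. Let
`N = sz A x s`, `L = lg N = log₂ N + 2 ≥ L0`. Then `A.m x`, `A.T x`, `A.w x`, `s x` are `≤ N < 2 ^ L`
(`Nat.lt_pow_succ_log_self`), and `2 ^ (C L) ≤ (4 N + 4) ^ C`, since `2 ^ (log₂ N + 2) ≤ 4 N + 4`.
So `zn A x s c a β C = ZZ c a β L`. By DIG with
`F A' θ s' = res A x (WW c L) K t (pt P K t L A') (cut (A.m x) (cn R P K t L d A' θ s'))` (`pt` uses
only `A' 0, ..., A' (t+1)`, `cn` only `θ 0, ..., θ (d-1)` and `s' j` with `j < K`), the fraction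
`ρ = an / zn` is the probability in TOT, so by TOT (`e = L`) and PARA (the first summand is
`≤ 2^(2 L) / 2^W`) `|ρ - A.acc x / 2^(A.m x)| < 1/(2 L^c) ≤ 1/(2 (lg (s x))^c)`. Finally
`|apx - lg (s x)^c ρ| ≤ 1/2`, because `apx` is the integral part of `lg (s x)^c ρ + 1/2`
(`zn > 0`). -/
def ApxStmt : Prop := ∀ c : ℕ, ∃ a β C L0 : ℕ, ∀ (α : Type) [ToData α] (A : Machine α)
  (s : α → ℕ) (x : α), L0 ≤ lg (sz A x s) →
    |(apx A x s c a β C : ℝ) / (lg (s x) : ℝ) ^ c - (A.acc x : ℝ) / 2 ^ A.m x| ≤
      1 / (lg (s x) : ℝ) ^ c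

/-- **ALL.** Approximation for all inputs. (May assume `ApxStmt`, `PtdStmt`, `BruStmt`,
`PtlStmt`.)

Proof. With `a`, `β`, `C`, `L0` from APX let `f x = apx A x s c a β C` if `L0 ≤ lg (sz A x s)`, and
otherwise the value of the function of BRU with `M = 2 ^ L0`: then `A.m x ≤ sz A x s < 2 ^ L0`.
`PolyTime.ite`. `PolyTimeComputable (encOf α) (encOf ℕ) s` and `PolyTime s` are equivalent
(`Pool.Agent.Helper78.LM.PT_of_comp` for one direction, the definition or `polyTimeComputable` of
the calculus for the other). -/
def AllStmt : Prop := ∀ c : ℕ, Approximable c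

/-- **GAP.** Languages. (May assume `AllStmt`.)

Proof. A language in `P` is decided by a trivial machine, as in `Pool.Agent.Helper78.LN.Ipg`: no
coins, one stage, `act (x, i, a) = 2` if `f x = true` and `1` otherwise (`PT_of_inP` gives `f`),
`w = 1`: the only list `a` with `∀ k < a.length, 3 ≤ act ...` is `[]`. `acc x` is `1` for `x ∈ L`
and `0` otherwise, `g = 0`, and `1 ≤ (Nat.log 2 x.length + 2) ^ c`.
Conversely let `A`, `g` decide `L` with gap, and let `f` be the function of ALL for `A`,
`s x = x.length` and `c + 2`. With `l = Nat.log 2 x.length + 2 ≥ 2` the probability `p` satisfies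
`|f x / l^(c+2) - p| ≤ 1/l^(c+2) ≤ 1/(4 l^c)`; so `x ∈ L` iff `(2 g x + 1) / (2 l^c) ≤
f x / l^(c+2)`, that is, `(2 g x + 1) * l ^ 2 ≤ 2 * f x`, which is decidable in `PolyTime`
(`inP_of_PT`). -/
def GapStmt : Prop := ∀ (c : ℕ) (L : Set (List Bool)), InP L ↔ DecidedWithGap c L

/-- **LST.** Decision lists. (May assume `AllStmt`.)

Proof. The machine for inputs of the type `ℕ × DList`: `m (n, F) = n`, `T (n, F) = F.length`, `w =
2 * dsize (n, F) + 2`; the stage `i` reads the literals of the term number `i` one after the other,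
as long as they are satisfied: with `e = F.getD i ([], false)` let `act ((n, F), i, a)` be
`0` if not all of the bits `a[k]` agree with `e.1[k].2` (or if `a` is too long), `e.1[k].1 + 3` for
`k = a.length` if they agree and `k < e.1.length`, and `2` or `1`, according to `e.2`, if they agree
and `k = e.1.length`. The histories of a stage are the lists which agree but for the last bit, so
there are at most `2 * e.1.length + 1`. All functions are in `PolyTime`. `Accepts` iff
`DList.val r F = true`: by induction on `F` (generalize the numbers of the stages), with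
`A.coin r v = if h : v < n then r ⟨v, h⟩ else false`. Now apply ALL with `s = dsize`. -/
def LstStmt : Prop := ∀ c : ℕ, CountsLists c

end Pool.Agent.Helper78.DT
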