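import Pool.Agent.Helper78.DT.Goals2

/-!
# PARA from PA1, ..., PA6
-/

namespace Pool.Agent.Helper78.DT

theorem seven_lt {x1 x2 x3 x4 k e1 e2 e3 B y : ℝ} (hB : 0 < y) (hy : 1 / (64 * y) = B)
    (a1 : x1 ≤ B) (a2 : x2 ≤ B) (a3 : x3 ≤ B) (a4 : x4 ≤ B) (b1 : k * e1 ≤ B) (b2 : k * e2 ≤ B)
    (b3 : k * e3 ≤ B) : x1 + (x2 + x3) + x4 + k * (e1 + e2 + e3) < 1 / (2 * y) := by
  have e1 : 1 / (2 * y) = 32 * B := by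
    rw [← hy]
    field_simp
    norm_num
  have e3 : 0 < B := by
    rw [← hy]
    positivity
  rw [e1]
  nlinarith

theorem para (h1 : Pa1Stmt) (h2 : Pa2Stmt) (h3 : Pa3Stmt) (h4 : Pa4Stmt) (h5 : Pa5Stmt)
    (h6 : Pa6Stmt) : ParaStmt := by
  intro c
  have ha : ∃ a : ℕ, 1 ≤ a ∧ 2 * a + 3 + 2 * (c + 2) * (2 * a + 9) + 7 ≤ 2 ^ (a - 1) := by
    refine ⟨4 * c + 20, by omega, ?_⟩
    have e1 : 2 * c + 1 ≤ 2 ^ (2 * c) := Nat.lt_two_pow_self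
    have e2 : 2 ^ (4 * c + 20 - 1) = (2 ^ (2 * c)) ^ 2 * 2 ^ 19 := by
      rw [← pow_mul, ← pow_add]
      congr 1
      omega
    rw [e2]
    have e3 : (2 * c + 1) ^ 2 ≤ (2 ^ (2 * c)) ^ 2 := Nat.pow_le_pow_left e1 2
    nlinarith
  obtain ⟨a, ha1, ha2⟩ := ha
  obtain ⟨L1, h1⟩ := h1 c
  obtain ⟨L2, h2⟩ := h2 c a _ rfl
  obtain ⟨L3, h3⟩ := h3 c a
  obtain ⟨L4, h4⟩ := h4 c a (2 * (2 * a + 9) * (c + 1) + 1)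
  obtain ⟨L5, h5⟩ := h5 c a (2 * (2 * a + 9) * (c + 1) + 1) ha1 ha2
  obtain ⟨L6, h6⟩ := h6 c a (2 * (2 * a + 9) * (c + 1) + 1) ha1
  refine ⟨a, 2 * (2 * a + 9) * (c + 1) + 1, L1 + L2 + L3 + L4 + L5 + L6 + 1, fun L hL => ?_⟩
  obtain ⟨a1, a2⟩ := h1 L (by omega)
  have a3 := h2 L (by omega)
  have a4 := h3 L (by omega)
  obtain ⟨b1, b2, b3, b4⟩ := h4 L (by omega)
  have b5 := h5 L (by omega)
  obtain ⟨c1, c2, c3, c4, c5, c6, c7, c8, c9, c10, c11, c12, c13⟩ := h6 L (by omega)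
  refine ⟨kp a L, sp a L, ηp a, κp a L, δp c L, c1, c2, b1, c3, c4, c5, c6, c7, c8, c9, c10, c11,
    c12, c13, ?_⟩
  have hL0 : (0 : ℝ) < (L : ℝ) ^ c := pow_pos (Nat.cast_pos.2 (by omega)) c
  exact seven_lt hL0 rfl a1 a2 a3 a4 b3 b4 b5

end Pool.Agent.Helper78.DT
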