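import Pool.Agent.Helper78.DT.Key
import Pool.Agent.Helper78.DT.Para
import Pool.Agent.Helper78.DT.Goals3
import Pool.Agent.Helper27.DT.EXT
import Pool.Agent.Helper89.DT.Enc
import Pool.Agent.Helper89.DT.Clo
import Pool.Agent.Helper15.DT.BDP
import Pool.Agent.Helper13.DT.BRK
import Pool.Agent.Helper61.DT.TRF
import Pool.Agent.Helper81.DT.RNB
import Pool.Agent.Helper61.DT.DEPCNT
import Pool.Agent.Helper35.DT.LAG
import Pool.Agent.Helper50.DT.MOM
import Pool.Agent.Helper20.DT.IND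
import Pool.Agent.Helper93.DT.BIA
import Pool.Agent.Helper35.DT.GTH
import Pool.Agent.Helper59.DT.HSHINJ
import Pool.Agent.Helper32.DT.GOO
import Pool.Agent.Helper9.DT.FOO
import Pool.Agent.Helper38.DT.BAL
import Pool.Agent.Helper8.DT.NPRCPW
import Pool.Agent.Helper16.DT.PA2
import Pool.Agent.Helper5.DT.PA3
import Pool.Agent.Helper90.DT.PA4
import Pool.Agent.Helper31.DT.PA5
import Pool.Agent.Helper2.DT.PARB
import Pool.Agent.Helper34.DT.DIG
import Pool.Agent.Helper87.DT.PTN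
import Pool.Agent.Helper3.DT.PTL
import Pool.Agent.Helper56.DT.HIS
import Pool.Agent.Helper8.DT.RES
import Pool.Agent.Helper79.DT.TOA
import Pool.Agent.Helper65.DT.TOB
import Pool.Agent.Helper42.DT.TOT
import Pool.Agent.Helper16.DT.PTD
import Pool.Agent.Helper40.DT.BRU
import Pool.Agent.Helper39.DT.Apx
import Pool.Agent.Helper89.DT.All
import Pool.Agent.Helper61.DT.GAP
import Pool.Agent.Helper58.DT.LST
import Pool.Agent.Helper32.DT.HYB
import Pool.Agent.Helper51.DT.TLLPA1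
import Pool.Agent.Helper46.DT.Pa6
import Pool.Agent.Helper48.DT.DLM
import Pool.Agent.Helper37.DT.PTR

/-!
# Derandomization of decision lists: the assembly
-/

namespace Pool.Agent.Helper78.DT

theorem npr : NprStmt := Pool.Agent.Helper8.DT.npr

theorem cpwS : CpwStmt := Pool.Agent.Helper8.DT.cpw_eq

theorem keyS : KeyStmt := key Pool.Agent.Helper27.DT.ext Pool.Agent.Helper89.DT.encS

theorem dep : DepStmt := Pool.Agent.Helper61.DT.dep

theorem inj : InjStmt := Pool.Agent.Helper59.DT.inj Pool.Agent.Helper59.DT.hsh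

theorem foo : FooStmt :=
  Pool.Agent.Helper9.DT.foo (Pool.Agent.Helper13.DT.brk keyS)
    (Pool.Agent.Helper15.DT.bdp (Pool.Agent.Helper89.DT.clo keyS))
    (Pool.Agent.Helper81.DT.rnb Pool.Agent.Helper61.DT.trf dep) dep inj

theorem goo : GooStmt :=
  Pool.Agent.Helper32.DT.goo (Pool.Agent.Helper35.DT.gth Pool.Agent.Helper50.DT.mom
    (Pool.Agent.Helper20.DT.ind Pool.Agent.Helper35.DT.lag) Pool.Agent.Helper93.DT.bia) dep
    Pool.Agent.Helper61.DT.cnt

theorem balS : BalStmt := Pool.Agent.Helper38.DT.bal Pool.Agent.Helper35.DT.lag inj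

theorem tobS : TobStmt := Pool.Agent.Helper65.DT.tob balS

theorem res_acc : ResStmt := Pool.Agent.Helper8.DT.res_acc Pool.Agent.Helper56.DT.his

theorem allS : AllStmt := by
  have hPtr : PtrStmt := Pool.Agent.Helper37.DT.ptr
  have hTll : TllStmt := Pool.Agent.Helper51.DT.tll
  have hHyb : HybStmt := Pool.Agent.Helper32.DT.hyb
  have hDlm : DlmStmt := Pool.Agent.Helper48.DT.dlm Pool.Agent.Helper56.DT.his res_acc
  have hPa4 : Pa4Stmt := Pool.Agent.Helper90.DT.pa4 hTll npr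
  have hPa6 : Pa6Stmt := Pool.Agent.Helper46.DT.pa6 hTll npr hPa4
  have hPara : ParaStmt := para (Pool.Agent.Helper51.DT.pa1 npr) (Pool.Agent.Helper16.DT.pa2 hTll)
    (Pool.Agent.Helper5.DT.pa3 hTll npr) hPa4 (Pool.Agent.Helper31.DT.pa5 hTll hPa4) hPa6
  have hParb : ParbStmt := Pool.Agent.Helper2.DT.parb npr hTll cpwS
  have hTot : TotStmt := Pool.Agent.Helper42.DT.tot hDlm
    (Pool.Agent.Helper79.DT.toa goo foo hHyb) tobS
  have hApx : ApxStmt := Pool.Agent.Helper39.DT.apx_thm hTot hPara hParb Pool.Agent.Helper34.DT.dig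
  exact Pool.Agent.Helper89.DT.all hApx
    (Pool.Agent.Helper16.DT.ptd Pool.Agent.Helper87.DT.ptn Pool.Agent.Helper3.DT.ptl hPtr npr cpwS)
    (Pool.Agent.Helper40.DT.bru res_acc hPtr Pool.Agent.Helper3.DT.ptl Pool.Agent.Helper87.DT.ptn
      Pool.Agent.Helper34.DT.dig) Pool.Agent.Helper3.DT.ptl

theorem main (c : ℕ) : CountsLists c ∧ Approximable c ∧
    ∀ L : Set (List Bool), Pool.Agent.Helper51.ZP.InP L ↔ DecidedWithGap c L :=
  ⟨Pool.Agent.Helper58.DT.lst allS c, allS c, Pool.Agent.Helper61.DT.gap allS c⟩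

end Pool.Agent.Helper78.DT
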