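import Pool.Agent.Helper78.DT.Goals
import Pool.Agent.Helper78.DT.Num
import Pool.Agent.Helper51.ZP.Main

/-!
# Derandomization of decision lists: parameters, counting, polynomial time

The statements of the second part, with proofs in words. They do not mention machines.
-/

namespace Pool.Agent.Helper78.DT

open Pool.Agent.Helper81.CC Pool.Agent.Helper51.ZP
open scoped Classical

/-- **NPR.** The prime numbers: Bertrand's postulate (`Nat.exists_prime_lt_and_le_two_mul`), and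
`List.find?_some`, `List.find?_eq_none`. -/
def NprStmt : Prop := ∀ X : ℕ, 0 < X → (np X).Prime ∧ X ≤ np X ∧ np X ≤ 2 * X

/-- The number `s` of the terms of the short lists. -/
def sp (a L : ℕ) : ℕ := 2 ^ (tt a L * (a + 1))

/-- Half the exponent of the moment. -/
def kp (a L : ℕ) : ℕ := 2 ^ (tt a L * (a + 5))

/-- The exponent `η`. -/
noncomputable def ηp (a : ℕ) : ℝ := 1 / 2 ^ (a - 1)

/-- The threshold `κ`. -/
noncomputable def κp (a L : ℕ) : ℝ := 2 ^ tt a L / 2 ^ (tt a L * 2 ^ (a - 1))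

/-- The error `δ` for one part. -/
noncomputable def δp (c L : ℕ) : ℝ := 1 / (64 * (L : ℝ) ^ (c + 2))

/-- **TLL.** The size of `t = tt a L = ⌊log₂ L / (2 a + 9)⌋`.

Proof. `Nat.pow_log_le_self`, `Nat.lt_pow_succ_log_self`, `Nat.div_mul_le_self`,
`Nat.lt_mul_div_succ`; with `L0 = 2 ^ ((2 a + 9) M)` we have `(2 a + 9) M ≤ log₂ L`. -/
def TllStmt : Prop := ∀ a : ℕ,
  (∀ L, 1 ≤ L → 2 ^ ((2 * a + 9) * tt a L) ≤ L ∧ L < 2 ^ ((2 * a + 9) * (tt a L + 1))) ∧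
  ∀ M : ℕ, ∃ L0, ∀ L ≥ L0, M ≤ tt a L

/-- **CPW.** The power which is cut off: by induction on `n`. -/
def CpwStmt : Prop := ∀ cap b n : ℕ, 1 ≤ cap → 1 ≤ b → cpw cap b n = min cap (b ^ n)

/-- **PA1.** (May assume `NprStmt`.) Proof. `W = (c + 9) L`. The first: `2^(2 L) / 2^W =
2^(-(c+7) L)`, and `L^c ≤ 2^(c L)`, `64 ≤ 2^(7 L)`. The second: `W² L / P ≤ (c+9)² L³ / L^(c+6)`,
for `L³ ≥ 64 (c+9)²`. -/
def Pa1Stmt : Prop := ∀ c : ℕ, ∃ L0, ∀ L ≥ L0,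
  (2 : ℝ) ^ (2 * L) / 2 ^ WW c L ≤ 1 / (64 * (L : ℝ) ^ c) ∧
  (WW c L : ℝ) ^ 2 * L / PP c L ≤ 1 / (64 * (L : ℝ) ^ c)

/-- **PA2.** (May assume `TllStmt`.) Proof. Let `C = 2 a + 9`, `t = tt a L`, `m = t + 1`,
`W = (c + 9) L`. `W choose m ≤ W^m / m!` (`Nat.choose_le_pow_div`) and `m^m ≤ 3^m m!` (induction, or
`exp`), so `(W choose m) 2^m ≤ (6 W/m)^m`. `K = 2^β (⌊6 W/m⌋ + 1) ≥ 2^β 6 W/m`, so the quotient is
`≤ (6W/m) / 2^(β t) ≤ 6 W / 2^(β t)`, and `384 W L^c ≤ 384 (c+9) L^(c+1) ≤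
384 (c+9) 2^(C (t+1)(c+1)) ≤ 2^(β t)` if `384 (c+9) ≤ 2^t`, `t ≥ 1`, because then
`β t = 2 C (c+1) t + t ≥ C (c+1)(t+1) + t`. -/
def Pa2Stmt : Prop := ∀ c a β : ℕ, β = 2 * (2 * a + 9) * (c + 1) + 1 → ∃ L0, ∀ L ≥ L0,
  ((WW c L).choose (tt a L + 1) : ℝ) * 2 ^ (tt a L + 1) / (KK c a β L : ℝ) ^ tt a L ≤
    1 / (64 * (L : ℝ) ^ c)

/-- **PA3.** (May assume `TllStmt`, `NprStmt`.) Proof. With `C = 2 a + 9`, `t = tt a L`,
`s = sp a L`, `k = kp a L = 2^(4 t) s`: `P ≤ 2 L^(c+6)`, so `2 P + 1 ≤ 2^p`,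
`p = (c+6) C (t+1) + 3`, and `2 (2P+1)^t + 1 ≤ 2^(p t + 2)`; needed:
`1 + (p t + 2) s + 6 + c C (t+1) ≤ 2 k`, which follows from `7 + c C (t+1) + p t + 2 ≤ 2 * 2^(4 t)`
(true for large `t`), since `s ≥ 1`. -/
def Pa3Stmt : Prop := ∀ c a : ℕ, ∃ L0, ∀ L ≥ L0,
  2 * (2 * (2 * (PP c L : ℝ) + 1) ^ tt a L + 1) ^ sp a L * (1 / 4) ^ kp a L ≤
    1 / (64 * (L : ℝ) ^ c)

/-- **PA4.** (May assume `TllStmt`, `NprStmt`.) Proof. `K ≤ 2^β (6 (c+9) L + 1) ≤ L²` for large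
`L`. So `K δ ≤ 1/(64 L^c)`; and with `t ≤ 2^t`: `t s ≤ 2^(t(a+2))`, so `(t s)² ≤ 2^(C t) ≤ L`,
`C = 2 a + 9`; so the last quantity is `≤ L² L L / L^(c+6) = 1/L^(c+2) ≤ 1/(64 L^c)` for
`L ≥ 8`. -/
def Pa4Stmt : Prop := ∀ c a β : ℕ, ∃ L0, ∀ L ≥ L0,
  0 < KK c a β L ∧ KK c a β L ≤ L ^ 2 ∧
  (KK c a β L : ℝ) * δp c L ≤ 1 / (64 * (L : ℝ) ^ c) ∧
  (KK c a β L : ℝ) * (((tt a L * sp a L : ℕ) : ℝ) ^ 2 * L / PP c L) ≤ 1 / (64 * (L : ℝ) ^ c)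

/-- **PA5.** (May assume `TllStmt`, `Pa4Stmt`.) Proof. Let `H = 2 ^ (a - 1)`, `C = 2 a + 9`,
`t = tt a L`. `2/η = 2^a`, `(2/η)^t = 2^(a t)`, `κ = 2^(-t (H-1))`, `1 - η = 1 - 1/H`,
`κ^(1-η) = 2^(-t (H-1)(1-1/H)) ≤ 2^(-t (H-2))`, `s + 1 ≤ 2^(1 + t(a+1))`,
`K L^c ≤ L^(c+2) ≤ 2^((c+2) C (t+1))`, so it suffices that
`(c+2) C (t+1) + 1 + 6 + t (2a + 3) ≤ t H`, which holds for `t ≥ 1` by the hypothesis, since
`(c+2) C (t+1) ≤ 2 (c+2) C t`. -/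
def Pa5Stmt : Prop := ∀ c a β : ℕ, 1 ≤ a →
  2 * a + 3 + 2 * (c + 2) * (2 * a + 9) + 7 ≤ 2 ^ (a - 1) → ∃ L0, ∀ L ≥ L0,
    (KK c a β L : ℝ) * ((sp a L + 1) * (κp a L ^ (1 - ηp a) * (2 / ηp a) ^ tt a L)) ≤
      1 / (64 * (L : ℝ) ^ c)

/-- **PA6.** (May assume `TllStmt`, `NprStmt`, `Pa4Stmt`.) The side conditions. Proof.
`K ≤ L² ≤ L^(c+6) ≤ P`; `q P ≤ R` by NPR; `2 k t s ≤ 2^(1 + t(a+5) + t(a+2)) ≤ 2^(t (2a+8))` for
`t ≥ 1`; `16 k² ≤ 16 L² = q δ²`, since `k = 2^(t(a+5)) ≤ 2^((2 a + 9) t) ≤ L`;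
`2 t s ≤ 2 L ≤ 2^10 L^(c+4) ≤ δ R` as `R ≥ q P ≥ 2^16 L^(2c+6)`;
`(2/η)^t = 2^(a t) = s * 2^(-t) = s (κ/2^t)^η`, because `κ / 2^t = 2^(-t H)`, `η = 1/H`,
`H = 2^(a-1)`. -/
def Pa6Stmt : Prop := ∀ c a β : ℕ, 1 ≤ a → ∃ L0, ∀ L ≥ L0,
  (PP c L).Prime ∧ (RR c L).Prime ∧ KK c a β L ≤ PP c L ∧
  0 < qn c L ∧ qn c L * PP c L ≤ RR c L ∧ 2 * kp a L * (tt a L * sp a L) ≤ dd a L ∧
  0 < δp c L ∧ 16 * (kp a L : ℝ) ^ 2 ≤ qn c L * δp c L ^ 2 ∧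
  2 * ((tt a L * sp a L : ℕ) : ℝ) ≤ δp c L * RR c L ∧
  0 < ηp a ∧ ηp a ≤ 1 ∧ 0 < κp a L ∧
  (2 / ηp a) ^ tt a L ≤ sp a L * (κp a L / 2 ^ tt a L) ^ ηp a

/-- **PARA.** The choice of the parameters, part 1: all errors together are small. (Follows from
`Pa1Stmt`, ..., `Pa6Stmt`; proved in `DT/Para.lean` from these.)

Proof. Choose `a ≥ 1` with `2 a + 3 + 2 (c + 2) (2 a + 9) + 7 ≤ 2 ^ (a - 1)`,
`β = 2 (2 a + 9) (c + 1) + 1`, and `L` larger than all the bounds; the sum is at most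
`7/(64 L^c) < 1/(2 L^c)`. -/
def ParaStmt : Prop := ∀ c : ℕ, ∃ a β L0 : ℕ, ∀ L ≥ L0,
  ∃ (k s : ℕ) (η κ δ : ℝ),
    (PP c L).Prime ∧ (RR c L).Prime ∧ 0 < KK c a β L ∧ KK c a β L ≤ PP c L ∧
    0 < qn c L ∧ qn c L * PP c L ≤ RR c L ∧ 2 * k * (tt a L * s) ≤ dd a L ∧ 0 < δ ∧
    16 * (k : ℝ) ^ 2 ≤ qn c L * δ ^ 2 ∧ 2 * ((tt a L * s : ℕ) : ℝ) ≤ δ * RR c L ∧
    0 < η ∧ η ≤ 1 ∧ 0 < κ ∧ (2 / η) ^ tt a L ≤ s * (κ / 2 ^ tt a L) ^ η ∧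
    (2 : ℝ) ^ (2 * L) / 2 ^ WW c L +
      ((WW c L : ℝ) ^ 2 * L / PP c L +
        ((WW c L).choose (tt a L + 1)) * 2 ^ (tt a L + 1) / (KK c a β L : ℝ) ^ tt a L) +
      2 * (2 * (2 * (PP c L : ℝ) + 1) ^ tt a L + 1) ^ s * (1 / 4) ^ k +
      KK c a β L * er (PP c L) (tt a L) s L η κ δ < 1 / (2 * (L : ℝ) ^ c)

/-- **PARB.** The choice of the parameters, part 2: the number of the seeds is at most
`2 ^ (C L)`, for every choice of `a`, `β`. (May assume `NprStmt`, `TllStmt`, `CpwStmt`.)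

Proof. Let `C' = 2 a + 9`, `t = tt a L`, `2 ^ (C' t) ≤ L < 2 ^ (C' (t + 1))`, `L ≥ L0` large, so `t`
is large. `P ≤ 2 L^(c+6)`, so `P ≤ 2^(1 + (c+6) C' (t+1))` and
`P^(t+2) ≤ 2^((1 + (c+6) C' (t+1)) (t+2)) ≤ 2^L`, since `L ≥ 2^(C' t)`.
`R ≤ 2 q P ≤ 2^18 L^(3c+12) ≤ 2^(18 + (3c+12) C' (t+1))`, and `d = 2^(t(2a+8))`, so
`R^d ≤ 2^(2^(t (2a+8)) (18 + (3c+12) C' (t+1))) ≤ 2^(2^(t (2a+9))) ≤ 2^L` if
`18 + (3c+12) C' (t+1) ≤ 2^t`. `q P ≤ 2^(D (t+1))` with `D = 17 + (3c+12) C'`, and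
`K (t+1) ≤ 2^β (6 W + t + 1) ≤ 2^β (6 (c+9) + 1) L`, so
`(q P)^K ≤ 2^(D 2^β (6 (c+9) + 1) L)`. By CPW, `cpw cap b n = b ^ n` if `1 ≤ b` and
`b ^ n ≤ cap`; with `cap ≥ 2^(C L)` this applies to the three factors. -/
def ParbStmt : Prop := ∀ c a β : ℕ, ∃ C L0 : ℕ, ∀ L ≥ L0, ∀ cap : ℕ, 2 ^ (C * L) ≤ cap →
  Zc cap c a β L = ZZ c a β L

/-- **DIG.** Counting seeds by their digits.

Proof. For `b ≥ 1` the map `i ↦ (j ↦ i / b^j % b)` is a bijection from `{0, ..., b^n - 1}` to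
`Fin n → Fin b` (`finFunctionFinEquiv`, `finFunctionFinEquiv_symm_apply_val`), and
`i ↦ (i % X, i / X)` is a bijection from `{0, ..., X Y - 1}` to pairs (`finProdFinEquiv`,
`Fin.divNat`, `Fin.modNat`); the lowest `n` digits of `i` and of `i % b^n` are the same
(`Nat.mod_mod_of_dvd`, `Nat.div_mod_eq_mod_mul_div`). If `P`, `R` or `Q` is `0` with a positive
exponent, both sides are `0`. `F` depends only on the first values of its arguments, so it can be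
applied to `dg ...` or to `ext` of the function on `Fin n`. -/
def DigStmt : Prop := ∀ (P R Q u d K : ℕ) (F : (ℕ → ℕ) → (ℕ → ℕ) → (ℕ → ℕ) → Bool),
  (∀ A A' θ θ' s s' : ℕ → ℕ, (∀ i < u, A i = A' i) → (∀ i < d, θ i = θ' i) →
    (∀ i < K, s i = s' i) → F A θ s = F A' θ' s') →
  (((List.range (P ^ u * R ^ d * Q ^ K)).filter fun i =>
      F (dg P i) (dg R (i / P ^ u)) (dg Q (i / P ^ u / R ^ d))).length : ℝ) =
    ((P ^ u * R ^ d * Q ^ K : ℕ) : ℝ) *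
      pr fun z : (Fin u → Fin P) × (Fin d → Fin R) × (Fin K → Fin Q) =>
        F (ext z.1) (ext z.2.1) (ext z.2.2) = true

/-- **PTN.** The numbers are computed in polynomial time. Numbers are coded in unary. The
intermediate results of the naive power `x ^ i` are too long, so use Horner's rule modulo `R`:
`pv R d cs x` is the value after `d` steps of `acc ↦ (acc * x + cs (d - 1 - i)) % R`, from `0`.

Proof. Horner: after `j` steps the value is `(∑_{i < j} cs (d - j + i) x^i) % R`. For the digits: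
`dg b n i = n / b^i % b`, with `n / b^i` as `i` times `/ b` (`Nat.div_div_eq_div_mul`), which
decreases. (Calculus `PolyTime`: `Pool.Agent.Helper81.CompT`, `CompF`, `CompL`;
`PolyTime.nat_rec_bd`, `PolyTime.iterate_bd`, `fun_prop`.) -/
def PtnStmt : Prop := ∀ (α : Type) [ToData α],
  (∀ R d x : α → ℕ, ∀ cs : α → ℕ → ℕ, (∀ a, 0 < R a) → PolyTime R → PolyTime d → PolyTime x →
    PolyTime (fun z : α × ℕ => cs z.1 z.2) → PolyTime fun a => pv (R a) (d a) (cs a) (x a)) ∧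
  (∀ b n i : α → ℕ, PolyTime b → PolyTime n → PolyTime i →
    PolyTime fun a => dg (b a) (n a) (i a))

/-- **PTL.** Logarithms, powers and primes in polynomial time, in unary.

Proof. `Nat.log 2 n` is the number of the `i < n` with `2 ^ (i + 1) ≤ n` (or count the steps of
`n ↦ n / 2` until `n < 2`); `cpw` by `PolyTime.iterate_bd`, the values are `≤ cap + 1`; `np` by
`find?` over `List.range` (or `filter` and `headD`), and primality by trial division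
(`Nat.prime_def_lt''` or: `2 ≤ p` and no `m ∈ range p` with `2 ≤ m` divides `p`). Powers `2 ^ m`
with `2 ^ m ≤ n`: `cpw n 2 m`. -/
def PtlStmt : Prop := ∀ (α : Type) [ToData α] (n m b : α → ℕ), PolyTime n → PolyTime m →
  PolyTime b →
  (PolyTime fun a => lg (n a)) ∧ (PolyTime fun a => Nat.log 2 (n a)) ∧
  (PolyTime fun a => np (n a)) ∧
  (PolyTime fun a => cpw (n a) (b a) (m a)) ∧
  ((∀ a, 2 ^ m a ≤ n a) → PolyTime fun a => 2 ^ m a)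

end Pool.Agent.Helper78.DT
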