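import Mathlib

/-!
# Decision lists, probabilities, brackets: the definitions of the analysis
-/

namespace Pool.Agent.Helper78.DT

open scoped Classical

/-- The average of a real function on a finite type. -/
noncomputable def av {Ω : Type*} [Fintype Ω] (F : Ω → ℝ) : ℝ := (∑ w, F w) / Fintype.card Ω

/-- The probability of an event on a finite type. -/
noncomputable def pr {Ω : Type*} [Fintype Ω] (E : Ω → Prop) : ℝ := av fun w => if E w then 1 else 0

variable {V V' : Type}

/-- A term is a finite set of literals `(v, b)`, which stands for the condition `x v = b`. -/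
abbrev Tm (V : Type) := Finset (V × Bool)

/-- A decision list: a list of terms with labels. -/
abbrev DL (V : Type) := List (Tm V × Bool)

/-- The assignment `x` satisfies the term `T`. -/
def Sat (T : Tm V) (x : V → Bool) : Prop := ∀ p ∈ T, x p.1 = p.2

/-- The assignment `x` satisfies no term of the decision list. -/
def NoSat (f : DL V) (x : V → Bool) : Prop := ∀ e ∈ f, ¬ Sat e.1 x

/-- The value of a decision list: the label of the first satisfied term, `false` if there is
none. -/
noncomputable def ev : DL V → (V → Bool) → Bool
  | [], _ => false
  | e :: f, x => if Sat e.1 x then e.2 else ev f x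

/-- The term number `i` is the first satisfied one. -/
def First (f : DL V) (i : Fin f.length) (x : V → Bool) : Prop :=
  Sat (f.get i).1 x ∧ ∀ j, j < i → ¬ Sat (f.get j).1 x

/-- All terms of the list have at most `t` literals. -/
def Wid (t : ℕ) (f : DL V) : Prop := ∀ e ∈ f, e.1.card ≤ t

/-- The variables which occur in a decision list. -/
def vars (f : DL V) : Set V := {v | ∃ e ∈ f, ∃ p ∈ e.1, p.1 = v}

/-- The event `E` depends only on the variables in `S`. -/
def Dep (S : Set V) (E : (V → Bool) → Prop) : Prop :=
  ∀ x y : V → Bool, (∀ v ∈ S, x v = y v) → (E x ↔ E y)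

/-- Renaming of the variables of a decision list. -/
noncomputable def ren (π : V → V') (f : DL V) : DL V' :=
  f.map fun e => (e.1.image (Prod.map π id), e.2)

/-! ### Random restrictions -/

/-- `x` extends the partial assignment `ρ`. -/
def Ext (ρ : V → Option Bool) (x : V → Bool) : Prop := ∀ v b, ρ v = some b → x v = b

/-- The weight of a partial assignment: each variable is free with probability `1 - η`, and has each
of the two values with probability `η / 2`. -/
noncomputable def wt [Fintype V] (η : ℝ) (ρ : V → Option Bool) : ℝ :=
  ∏ v, if ρ v = none then 1 - η else η / 2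

/-- The probability that a random partial assignment can be extended to an element of `E`. -/
noncomputable def qq [Fintype V] [DecidableEq V] (η : ℝ) (E : (V → Bool) → Prop) : ℝ :=
  ∑ ρ : V → Option Bool, if ∃ x, E x ∧ Ext ρ x then wt η ρ else 0

/-! ### The bracket of a decision list -/

/-- The exceptional event of the short decision list `g`: for some `l`, none of the first `l` terms
of `g` is satisfied, but some term `T` of width `≤ t` over the variables of `g` is satisfied which
has, together with this condition, a small probability. -/
def Bad [Fintype V] [DecidableEq V] (t : ℕ) (k : ℝ) (g : DL V) (x : V → Bool) : Prop :=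
  ∃ l ≤ g.length, NoSat (g.take l) x ∧ ∃ T : Tm V, (∀ p ∈ T, p.1 ∈ vars g) ∧ T.card ≤ t ∧
    Sat T x ∧ pr (fun y => Sat T y ∧ NoSat (g.take l) y) ≤ k

/-- The lower end of the bracket. -/
def lo [Fintype V] [DecidableEq V] (t : ℕ) (k : ℝ) (g : DL V) (x : V → Bool) : Prop :=
  ev g x = true ∧ ¬ Bad t k g x

/-- The upper end of the bracket. -/
def hi [Fintype V] [DecidableEq V] (t : ℕ) (k : ℝ) (g : DL V) (x : V → Bool) : Prop :=
  ev g x = true ∨ Bad t k g x

/-! ### The generator. Numbers instead of elements of finite fields. -/

/-- The value modulo `R` of the polynomial with the coefficients `cs 0, ..., cs (d - 1)` at `x`. -/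
def pv (R d : ℕ) (cs : ℕ → ℕ) (x : ℕ) : ℕ := (∑ i ∈ Finset.range d, cs i * x ^ i) % R

/-- The hash value of the name `v` of a variable: the polynomial whose coefficients are the first
`e` binary digits of `v`, at the point `z` modulo `P`. -/
def hs (P e z v : ℕ) : ℕ := pv P e (fun i => v / 2 ^ i % 2) z

/-- A function on `Fin n` as a function on `ℕ` (`0` outside). -/
def ext {n R : ℕ} (A : Fin n → Fin R) (i : ℕ) : ℕ := if h : i < n then (A ⟨i, h⟩ : ℕ) else 0

/-- The bit `u` of the string number `a`, with the coefficients `θ`. -/
def hb (R P d : ℕ) (θ : ℕ → ℕ) (a u : ℕ) : Bool := decide (2 * pv R d θ (a * P + u) < R)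

/-- The part of the variable with the name `v`, with the coefficients `A`. -/
def pt (P K t e : ℕ) (A : ℕ → ℕ) (v : ℕ) : ℕ := pv P (t + 1) (fun i => A (i + 1)) (hs P e (A 0) v) % K

/-- The coin with the name `v`: `A` gives the partition, `θ` the strings, `s j` codes the pair
`(a, z)` of the number of the string and of the hash parameter for the part `j`, as `a * P + z`. -/
def cn (R P K t e d : ℕ) (A θ s : ℕ → ℕ) (v : ℕ) : Bool :=
  hb R P d θ (s (pt P K t e A v) / P) (hs P e (s (pt P K t e A v) % P) v)

end Pool.Agent.Helper78.DT
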