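import Mathlib.Data.Nat.Log
import Mathlib.Data.Set.Card
import Mathlib.Data.Real.Basic
import Pool.Agent.Helper51.ZP.Defs

/-!
# Randomized machines in stages without memory

Turing machines are Mathlib's multi-stack machines; `PolyTimeComputable` is in
`Pool.Agent.Helper81.CxDefs`, the coding `encOf` of structured data (with numbers in unary) is in
`Pool.Agent.Helper81.CxData`, and `InP` is in `Pool.Agent.Helper51.ZP.Defs`.
-/

namespace Pool.Agent.Helper78.DT

open Pool.Agent.Helper81.CC

/-- What a stage knows: the input (of the type `α`), the number of the stage, and the list of the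
bits which it has read so far. -/
abbrev View (α : Type) := α × ℕ × List Bool

/-- A randomized machine in stages without memory, for inputs of the type `α`. The coins are tossed
in advance, and each stage may read any of them, one after the other, adaptively. `act z` says what
a stage does next:
`0`: it ends, and the run goes on to the next stage, which knows nothing about the coins;
`1`: the run ends and rejects; `2`: the run ends and accepts; `j + 3`: it reads the coin `j`.
Numbers are coded in unary, so `m`, `T`, `w` are at most polynomial. -/
structure Machine (α : Type) [ToData α] where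
  /-- the number of the coins -/
  m : α → ℕ
  /-- the number of the stages -/
  T : α → ℕ
  /-- the bound for the size of the decision trees of the stages -/
  w : α → ℕ
  /-- the next action of a stage -/
  act : View α → ℕ
  m_poly : PolyTimeComputable (encOf α) (encOf ℕ) m
  T_poly : PolyTimeComputable (encOf α) (encOf ℕ) T
  w_poly : PolyTimeComputable (encOf α) (encOf ℕ) w
  act_poly : PolyTimeComputable (encOf (View α)) (encOf ℕ) act
  /-- in each stage there are at most `w x` possible lists of bits read so far, that is, each stage
  is a decision tree of polynomial size -/
  tree : ∀ (x : α) (i : ℕ),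
    {a : List Bool | ∀ k < a.length, 3 ≤ act (x, i, a.take k)}.encard ≤ w x

namespace Machine

variable {α : Type} [ToData α] (A : Machine α)

/-- The coin with the number `j` (`false` if there is no such coin). -/
def coin {x : α} (r : Fin (A.m x) → Bool) (j : ℕ) : Bool :=
  if h : j < A.m x then r ⟨j, h⟩ else false

/-- With the coins `r` the stage `i` reads exactly the list `a` of bits, and then it takes the
action `v < 3`. -/
def Ends (x : α) (r : Fin (A.m x) → Bool) (i : ℕ) (a : List Bool) (v : ℕ) : Prop :=
  (∀ k, ∀ h : k < a.length, 3 ≤ A.act (x, i, a.take k) ∧
    a[k] = A.coin r (A.act (x, i, a.take k) - 3)) ∧ A.act (x, i, a) = v ∧ v < 3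

/-- The run with the coins `r` accepts: some stage accepts, and all stages before it end without
halting the run. -/
def Accepts (x : α) (r : Fin (A.m x) → Bool) : Prop :=
  ∃ i < A.T x, (∃ a, A.Ends x r i a 2) ∧ ∀ j < i, ∃ a, A.Ends x r j a 0

/-- The number of the coin strings with which the machine accepts. -/
noncomputable def acc (x : α) : ℕ := Nat.card {r : Fin (A.m x) → Bool // A.Accepts x r}

end Machine

/-- The probability that a machine accepts can be approximated in polynomial time: for every
machine `A` (for inputs of any type `α`), every size function `s` which is computable in polynomial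
time, and every `c`, there is a deterministic polynomial-time function `f` such that the probability
that `A` accepts `x` is `f x / (log₂ (s x) + 2) ^ c` up to `1 / (log₂ (s x) + 2) ^ c`. -/
def Approximable (c : ℕ) : Prop :=
  ∀ (α : Type) [ToData α] (A : Machine α) (s : α → ℕ), PolyTimeComputable (encOf α) (encOf ℕ) s →
    ∃ f : α → ℕ, PolyTimeComputable (encOf α) (encOf ℕ) f ∧ ∀ x,
      |(f x : ℝ) / (Nat.log 2 (s x) + 2 : ℕ) ^ c - (A.acc x : ℝ) / 2 ^ A.m x| ≤
        1 / (Nat.log 2 (s x) + 2 : ℕ) ^ c

/-- `L` is decided with gap `1 / (log₂ n + 2) ^ c` by a randomized machine in stages without memory: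
for some number `g x`, computable in polynomial time, the probability that the machine accepts is at
least `(g x + 1) / (log₂ |x| + 2) ^ c` if `x ∈ L`, and at most `g x / (log₂ |x| + 2) ^ c` if
`x ∉ L`. -/
def DecidedWithGap (c : ℕ) (L : Set (List Bool)) : Prop :=
  ∃ (A : Machine (List Bool)) (g : List Bool → ℕ),
    PolyTimeComputable (encOf (List Bool)) (encOf ℕ) g ∧
    (∀ x ∈ L, (g x + 1) * 2 ^ A.m x ≤ (Nat.log 2 x.length + 2) ^ c * A.acc x) ∧
    (∀ x, x ∉ L → (Nat.log 2 x.length + 2) ^ c * A.acc x ≤ g x * 2 ^ A.m x)

/-- A decision list, as data: a list of terms with labels; a term is a list of literals `(v, b)`,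
each of which stands for the condition that the variable `v` has the value `b`. (A DNF is the case
in which all labels are `true`; a CNF is the negation of a DNF.) -/
abbrev DList := List (List (ℕ × Bool) × Bool)

/-- The value of a decision list at the assignment `r` of its `n` variables: the label of the first
term all of whose literals are satisfied, and `false` if there is none (the variables `v ≥ n` have
the value `false`). -/
def DList.val {n : ℕ} (r : Fin n → Bool) : DList → Bool
  | [] => false
  | e :: F => if ∀ p ∈ e.1, (if h : p.1 < n then r ⟨p.1, h⟩ else false) = p.2 then e.2 else val r F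

/-- The size of a decision list in `n` variables: `n`, plus the number of the terms, plus the number
of the literals. -/
def dsize (z : ℕ × DList) : ℕ := z.1 + (z.2.map fun e => e.1.length + 1).sum

/-- Approximate counting for decision lists: a deterministic polynomial-time function `f` gives,
for each decision list `F` in `n` variables, the fraction of the assignments with the value `true`
up to the additive error `1 / (log₂ N + 2) ^ c`, where `N` is the size of `(n, F)`. -/
def CountsLists (c : ℕ) : Prop :=
  ∃ f : ℕ × DList → ℕ, PolyTimeComputable (encOf (ℕ × DList)) (encOf ℕ) f ∧ ∀ n F,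
    |(f (n, F) : ℝ) / (Nat.log 2 (dsize (n, F)) + 2 : ℕ) ^ c -
        (Nat.card {r : Fin n → Bool // DList.val r F = true} : ℝ) / 2 ^ n| ≤
      1 / (Nat.log 2 (dsize (n, F)) + 2 : ℕ) ^ c

end Pool.Agent.Helper78.DT
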