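import Pool.Agent.Helper78.DT.Av

/-!
# Derandomization of decision lists: the statements of the analysis, with proofs in words

Each `...Stmt` is to be proved in its own file. Basic rules for `av`, `pr`: `DT/Av.lean`.
The whole paper proof: `DT/paper.md`. Second part: `DT/Goals2.lean`, third part: `DT/Goals3.lean`.
-/

namespace Pool.Agent.Helper78.DT

open scoped Classical

/-- **EXT.** The probability `qq η E` that a random restriction can be extended to an element of `E`
is at least `(pr E) ^ η`.

Proof. Induction on the number of the variables; prove it first for `V = Fin n` (or use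
`Fintype.induction_empty_option`; for a general `V` transport along `Fintype.equivFin`, `pr` and
`qq` are invariant under `Equiv.arrowCongr`). No variables: `E` is empty (`0 ^ η = 0`, as `0 < η`)
or everything (both sides are `1`). Step: let `E_b = {y | cons b y ∈ E}`, `m_b = pr E_b`, so
`pr E = (m_0 + m_1) / 2`. Sorting the restrictions by their value at the first variable,
`qq E = (η/2) qq E_0 + (η/2) qq E_1 + (1 - η) qq (E_0 ∨ E_1)`, because a restriction `none :: ρ` can
be extended to an element of `E` iff `ρ` can be extended to one of `E_0 ∨ E_1`. `qq` is monotone and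
nonnegative, so with `M = max (m_0^η) (m_1^η)`, `m = min ...` the induction hypothesis gives
`qq E ≥ (η/2)(M + m) + (1 - η) M = (1 - η/2) M + (η/2) m`. By symmetry let `m_1 ≤ m_0`. If
`m_0 = 0`, then `pr E = 0`. Otherwise let `y = m_1 / m_0 ∈ [0, 1]`; then
`(pr E)^η = m_0^η ((1+y)/2)^η`, and by Bernoulli's inequality for exponents in `[0,1]`
(`Real.rpow_one_add_le_one_add_mul_self` or concavity) `((1+y)/2)^η = (1 - (1-y)/2)^η
≤ 1 - η (1-y)/2 ≤ 1 - η (1 - y^η)/2` since `y ≤ y^η`. Multiply by `m_0^η`. -/
def ExtStmt : Prop := ∀ (V : Type) [Fintype V] [DecidableEq V] (η : ℝ), 0 < η → η ≤ 1 →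
  ∀ E : (V → Bool) → Prop, pr E ^ η ≤ qq η E

/-- **ENC.** The encoding argument.

Proof. For a partial assignment `ρ` and `i` with `∃ x, First f i x ∧ Ext ρ x` let
`A = {p ∈ T_i | ρ p.1 = none}` (`T_i = (f.get i).1`) and let `ρ'` be `ρ` with the value `p.2` at
`p.1` for all `p ∈ A` (the literals of `T_i` are consistent, since `x` satisfies them). `x` extends
`ρ'`: on `T_i` because `x` satisfies `T_i`. Say that `ρ'` satisfies a term `T` if
`ρ' p.1 = some p.2` for all `p ∈ T`. Then `ρ'` satisfies `T_i`, and it satisfies no earlier `T_j`,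
because otherwise `x` would satisfy `T_j`. So `i` is the first index whose term is satisfied by
`ρ'`, and `ρ` is obtained from `ρ'` by freeing the variables of `A`; hence `(ρ, i) ↦ (ρ', A)` is
injective, and `A ⊆ T_{i(ρ')}`. The literals in `A` have different variables, thus
`wt η ρ = wt η ρ' * ((1 - η) / (η / 2)) ^ |A|`. Therefore
`∑_i qq η (First f i) = ∑_{(ρ, i)} wt η ρ ≤ ∑_{ρ'} wt η ρ' ∑_{A ⊆ T_{i(ρ')}} (2 (1 - η)/η)^|A|
= ∑_{ρ'} wt η ρ' (1 + 2 (1 - η)/η)^{|T_{i(ρ')}|} ≤ (2/η)^t` (`Finset.sum_pow_mul_eq_add_pow` or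
`Finset.prod_one_add`), using `1 ≤ 1 + 2(1-η)/η = (2-η)/η ≤ 2/η` and `∑_{ρ'} wt η ρ' = 1`
(`Finset.prod_univ_sum`/`Fintype.piFinset`: the weights of `none, some false, some true` add up to
`1`). -/
def EncStmt : Prop := ∀ (V : Type) [Fintype V] [DecidableEq V] (η : ℝ) (t : ℕ) (f : DL V),
  0 < η → η ≤ 1 → Wid t f → ∑ i, qq η (First f i) ≤ (2 / η) ^ t

/-- **KEY.** Immediate from EXT and ENC (proved in `DT/Key.lean` from these two). -/
def KeyStmt : Prop := ∀ (V : Type) [Fintype V] [DecidableEq V] (η : ℝ) (t : ℕ) (f : DL V),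
  0 < η → η ≤ 1 → Wid t f → ∑ i, pr (First f i) ^ η ≤ (2 / η) ^ t

/-- **CLO.** Terms which have small probability together with `Q` cannot cover much of `Q`.
(May assume `KeyStmt`.)

Proof. Let `f` be a list of all elements of the finite set `F` (with any labels), without
repetitions or not. The event `Q ∧ ∃ T ∈ F, Sat T` is the union over `i` of the events
`Q ∧ First f i`. For each `i` the probability of `Q ∧ First f i` is at most
`min (k, p_i)`, `p_i = pr (First f i)`, and `min (k, p) ≤ k^(1-η) p^η` for `0 ≤ k, p`: if `p ≤ k`,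
then `p = p^(1-η) p^η ≤ k^(1-η) p^η`; if `k < p`, then `k = k^(1-η) k^η ≤ k^(1-η) p^η` (for
`k = 0` the left side is `0`). Union bound and KEY. -/
def CloStmt : Prop := ∀ (V : Type) [Fintype V] [DecidableEq V] (η k : ℝ) (t : ℕ)
  (Q : (V → Bool) → Prop) (F : Set (Tm V)), 0 < η → η ≤ 1 → 0 ≤ k →
  (∀ T ∈ F, T.card ≤ t ∧ pr (fun x => Sat T x ∧ Q x) ≤ k) →
  pr (fun x => Q x ∧ ∃ T ∈ F, Sat T x) ≤ k ^ (1 - η) * (2 / η) ^ t

/-- **BDP.** The probability of the exceptional event. (May assume `CloStmt`.)

Proof. `Bad t k g` is the union over `l ≤ g.length` of the events of CLO with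
`Q = NoSat (g.take l)` and `F = {T | (variables in vars g), T.card ≤ t, pr (Sat T ∧ Q) ≤ k}`. -/
def BdpStmt : Prop := ∀ (V : Type) [Fintype V] [DecidableEq V] (η k : ℝ) (t : ℕ) (g : DL V),
  0 < η → η ≤ 1 → 0 ≤ k →
  pr (Bad t k g) ≤ (g.length + 1) * (k ^ (1 - η) * (2 / η) ^ t)

/-- **BRK.** Every decision list of width `t` is bracketed by functions which are determined by a
short sublist. (May assume `KeyStmt`.)

Proof. Define `g` by going through `f` from left to right, with an accumulator `g` (append at the
end): the entry `e` is kept iff `k < pr (Sat e.1 ∧ NoSat g)`, where `g` is the list of the entries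
kept so far. `g` is a sublist of `f`, so `Wid t g`, and `First g j` is the event
`Sat (g.get j).1 ∧ NoSat (g.take j)`, which has probability `> k`; with KEY,
`g.length * k ^ η ≤ ∑_j pr (First g j) ^ η ≤ (2 / η) ^ t`. Now let `x` be given. If `x` satisfies no
term of `f`, then it satisfies no term of `g` and `ev f x = ev g x = false`. Otherwise let `e` be
the first satisfied entry of `f`. If `e` was kept, then `e` is the first satisfied entry of `g` (the
entries of `g` before `e` come from entries of `f` before `e`), so `ev f x = ev g x`. If `e` was not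
kept, let `l` be the length of the accumulator when `e` was treated: the accumulator is
`g.take l`, `x` satisfies no term of it, and `pr (Sat e.1 ∧ NoSat (g.take l)) ≤ k`. Let `T'` be the
set of the literals of `e.1` whose variable is in `vars g`. `NoSat (g.take l)` and `Sat T'` depend
only on `vars g`, and the other literals of `e.1` have different variables outside `vars g` (`e.1`
is satisfied by `x`, hence consistent), so
`pr (Sat T' ∧ NoSat (g.take l)) = 2^(e.1.card - T'.card) pr (Sat e.1 ∧ NoSat (g.take l)) ≤ 2^t k`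
(induct on the number of the other literals: for an event `E` which does not depend on the variable
`v`, `pr (E ∧ x v = b) = pr E / 2`). So `Bad t (2^t k) g x` holds. In all cases
`ev f x = ev g x` or `Bad`, which gives both implications. -/
def BrkStmt : Prop := ∀ (V : Type) [Fintype V] [DecidableEq V] (η k : ℝ) (t : ℕ) (f : DL V),
  0 < η → η ≤ 1 → 0 < k → Wid t f →
  ∃ g : DL V, g.Sublist f ∧ (g.length : ℝ) * k ^ η ≤ (2 / η) ^ t ∧
    ∀ x, (lo t (2 ^ t * k) g x → ev f x = true) ∧ (ev f x = true → hi t (2 ^ t * k) g x)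

/-- **TRF.** Probabilities of events which depend only on `S` do not change under renamings which
are injective on `S`.

Proof. `V = S ⊔ Sᶜ`; the restriction of a uniform `x : V → Bool` to `S` is uniform on `S → Bool`:
for each `s : S → Bool` the number of the `x` with this restriction is `2^(|V| - |S|)`. In the same
way the number of the `y : V' → Bool` with `y ∘ π = s` on `S` is `2^(|V'| - |S|)`, as `π` is
injective on `S`. (For example: `Equiv.piEquivPiSubtypeProd` for the predicates `v ∈ S` and
`v' ∈ π '' S`, `Equiv.arrowCongr` along the bijection `S ≃ π '' S`, and `pr_equiv`.) -/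
def TrfStmt : Prop := ∀ (V V' : Type) [Fintype V] [DecidableEq V] [Fintype V'] [DecidableEq V']
  (π : V → V') (S : Set V) (E : (V → Bool) → Prop), Set.InjOn π S → Dep S E →
  pr (fun y : V' → Bool => E fun v => y (π v)) = pr E

/-- **RNB.** Renaming of decision lists. (May assume `TrfStmt`, `DepStmt`.)

Proof. `Sat (T.image (Prod.map π id)) y ↔ Sat T (y ∘ π)` for every term `T` and every `π`, hence
`NoSat (ren π g) y ↔ NoSat g (y ∘ π)`, also for `take l` (`ren` commutes with `take`, keeps the
length), and `ev (ren π g) y = ev g (y ∘ π)` (induction). `vars (ren π g) = π '' vars g`. For `Bad`: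
if `T` is a term over `vars g`, then `T' = T.image (Prod.map π id)` is a term over `π '' vars g`
with the same number of literals (`π` injective on `vars g`), and by TRF with `S = vars g`,
`pr (Sat T' ∧ NoSat (ren π g).take l) = pr (Sat T ∧ NoSat (g.take l))`, because this event depends
only on `vars g`. Conversely every term `T'` over `π '' vars g` is of this form, with `T` the set of
the literals `(v, b)`, `v ∈ vars g`, `(π v, b) ∈ T'`. -/
def RnbStmt : Prop := ∀ (V V' : Type) [Fintype V] [DecidableEq V] [Fintype V'] [DecidableEq V']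
  (π : V → V') (g : DL V) (t : ℕ) (k : ℝ), Set.InjOn π (vars g) →
  (∀ y, lo t k (ren π g) y ↔ lo t k g fun v => y (π v)) ∧
  (∀ y, hi t k (ren π g) y ↔ hi t k g fun v => y (π v)) ∧
  pr (lo t k (ren π g)) = pr (lo t k g) ∧ pr (hi t k (ren π g)) = pr (hi t k g) ∧
  (Wid t g → Wid t (ren π g)) ∧ (ren π g).length = g.length

/-- **DEP.** The brackets of `g` depend only on the variables of `g`, and these are few.

Proof. Clear from the definitions (for `Bad`: all the terms `T` are over `vars g`, and the
condition on the probability does not depend on `x`); `vars g` is the union over the entries of the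
images of the terms. -/
def DepStmt : Prop := ∀ (V : Type) [Fintype V] [DecidableEq V] (g : DL V) (t : ℕ) (k : ℝ),
  Dep (vars g) (lo t k g) ∧ Dep (vars g) (hi t k g) ∧ (Wid t g → (vars g).ncard ≤ t * g.length)

/-- **CNT.** The number of the short decision lists of small width.

Proof. The terms `T` with at most `t` literals: `T` is the set of the values `≠ none` of a function
`Fin t → Option (Fin P × Bool)`, so there are at most `(2 P + 1)^t` of them, and at most
`M = 2 (2P+1)^t` labelled ones. A list of length `≤ s` of such entries is given by a function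
`Fin s → Option (entries)` (pad by `none`), so there are at most `(M + 1)^s`. -/
def CntStmt : Prop := ∀ P t s : ℕ, {g : DL (Fin P) | Wid t g ∧ g.length ≤ s}.Finite ∧
  {g : DL (Fin P) | Wid t g ∧ g.length ≤ s}.ncard ≤ (2 * (2 * P + 1) ^ t + 1) ^ s

/-- **LAG.** Random polynomials of degree `< d` over the field with `R` elements: the values at
`≤ d` points are independent and uniform.

Proof. Over `ZMod R` (a field): the map `θ ↦ (∑_{i<d} θ_i w^i)_{w ∈ W}` from `(ZMod R)^d` to
`(ZMod R)^W` is linear and surjective (Lagrange interpolation: there is a polynomial of degree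
`< |W| ≤ d` with given values; `Lagrange.interpolate`, `Lagrange.degree_interpolate_lt`; the
elements of `W` are `< R`, so they are different in `ZMod R`), so all fibres have
`R^d / R^|W|` elements. Then translate: `pv R d (ext θ) w` is the `val` of this sum
(`ZMod.natCast_eq_natCast_iff'`, `ZMod.val_natCast`), `Fin R ≃ ZMod R` for `R = n + 1`. -/
def LagStmt : Prop := ∀ (R d : ℕ), R.Prime → ∀ W : Finset ℕ, (∀ w ∈ W, w < R) → W.card ≤ d →
  ∀ y : ℕ → ℕ, (∀ w ∈ W, y w < R) →
    Nat.card {θ : Fin d → Fin R // ∀ w ∈ W, pv R d (ext θ) w = y w} = R ^ (d - W.card)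

/-- **MOM.** The moment bound.

Proof. Expand: `(∑_a Z a w)^(2k) = ∑_τ ∏_i Z (τ i) w` over all `τ : Fin (2k) → Fin q`
(`Finset.sum_pow'`, `Fintype.sum_pow`), take averages. The terms in which some value of `τ` is
attained only once vanish, all others are at most `1`. If every value of `τ` is attained at least
twice, then the image of `τ` has at most `k` elements, so `τ = β ∘ α` with `α : Fin (2k) → Fin k`,
`β : Fin k → Fin q`; therefore there are at most `k^(2k) q^k` of them. (`k = 0`: both sides are
`≤ 1` and `= 1`.) -/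
def MomStmt : Prop := ∀ (Ω : Type) [Fintype Ω] (q k : ℕ) (Z : Fin q → Ω → ℝ),
  (∀ a w, |Z a w| ≤ 1) →
  (∀ τ : Fin (2 * k) → Fin q, (∃ i, ∀ j, j ≠ i → τ j ≠ τ i) → av (fun w => ∏ i, Z (τ i) w) = 0) →
  av (fun w => (∑ a, Z a w) ^ (2 * k)) ≤ (k : ℝ) ^ (2 * k) * (q : ℝ) ^ k

/-- The probability of `φ` for bits which come from independent uniform elements of `Fin R`. -/
noncomputable def bp (R P : ℕ) (φ : (Fin P → Bool) → Prop) : ℝ :=
  pr fun y : Fin P → Fin R => φ fun u => decide (2 * (y u : ℕ) < R)

/-- The string number `a`, with the coefficients `θ`. -/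
def st (R P d : ℕ) (θ : ℕ → ℕ) (a : ℕ) : Fin P → Bool := fun u => hb R P d θ a u

/-- **IND.** The strings are almost independent. (May assume `LagStmt`.)

Proof. Let `W` be the set of the points `a P + u`, `a` in the image of `τ`, `u ∈ S`; for `a < q`,
`u < P` they are `< q P ≤ R`, pairwise different, and `|W| ≤ j σ ≤ d`. By LAG the values of
`pv R d (ext θ)` at the points of `W` are, for a random `θ`, independent uniform elements of
`{0, ..., R-1}`: for every function `Ψ` of these values, `av_θ Ψ = av_{y : W → Fin R} Ψ(y)` (all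
fibres have the same number of elements). The product of the statement is such a function, because
`φ` depends only on `S`. It is a product of functions of the values in the different blocks
`{a} × S`; the block of `a = τ i` occurs in exactly one factor, whose average is
`pr (φ for bits from uniform elements) - bp R P φ = 0` (the other blocks are independent of it;
the coordinates outside `S` do not matter for `φ`). -/
def IndStmt : Prop := ∀ (R P d q j σ : ℕ), R.Prime → q * P ≤ R → j * σ ≤ d →
  ∀ (φ : (Fin P → Bool) → Prop) (S : Set (Fin P)), Dep S φ → S.ncard ≤ σ →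
  ∀ τ : Fin j → Fin q, (∃ i, ∀ i', i' ≠ i → τ i' ≠ τ i) →
    av (fun θ : Fin d → Fin R =>
      ∏ i, ((if φ (st R P d (ext θ) (τ i)) then (1 : ℝ) else 0) - bp R P φ)) = 0

/-- **BIA.** The bits from uniform elements of `Fin R` are almost uniform.

Proof. One bit: the number of the `y < R` with `2 y < R` is `⌈R/2⌉`, so its probability of being
`true` differs from `1/2` by at most `1/(2R)`. Replace the coordinates in `S` one after the other:
let `h_i` be the probability of `φ` when the first `i` coordinates of `S` are exactly uniform bits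
and all others come from `Fin R`; conditioning on all other coordinates, a function of one bit with
values in `[0,1]` changes its mean by at most `1/(2R)`. Since `φ` depends only on `S`, `h_|S|` is
`pr φ`. (Alternatively: both are sums over `s : S → Bool` of `[φ(s)]` times products of `|S|`
factors, and `|∏ a_i - ∏ b_i| ≤ ∑ |a_i - b_i|` after summation over `s`.) -/
def BiaStmt : Prop := ∀ (R P σ : ℕ), 0 < R → ∀ (φ : (Fin P → Bool) → Prop) (S : Set (Fin P)),
  Dep S φ → S.ncard ≤ σ → |bp R P φ - pr φ| ≤ σ / R

/-- **GTH.** Most `θ` are good for all tests of a finite family. (May assume `MomStmt`, `IndStmt`,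
`BiaStmt`.)

Proof. For one test `φ = φ i`: let `Z a θ = [φ (st R P d (ext θ) a)] - bp R P φ`, of absolute value
`≤ 1`. By IND (with `j = 2 k`) and MOM, `av_θ (∑_a Z a θ)^(2k) ≤ k^(2k) q^k`. If
`δ < |pr_a (...) - pr φ|`, then `|∑_a Z a θ| > q δ/2`, because `|bp - pr φ| ≤ σ/R ≤ δ/2` (BIA). By
Markov (`pr_ge_le` for the `2k`-th powers), the probability is at most
`k^(2k) q^k / (q δ/2)^(2k) = (4 k²/(q δ²))^k ≤ (1/4)^k`. Union bound over `I`. (`q = 0` is excluded
by `0 < q`.) -/
def GthStmt : Prop := ∀ (R P d q k σ : ℕ) (δ : ℝ), R.Prime → 0 < q → q * P ≤ R → 2 * k * σ ≤ d →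
  0 < δ → 16 * (k : ℝ) ^ 2 ≤ q * δ ^ 2 → 2 * (σ : ℝ) ≤ δ * R →
  ∀ (ι : Type) (I : Finset ι) (φ : ι → (Fin P → Bool) → Prop) (S : ι → Set (Fin P)),
    (∀ i ∈ I, Dep (S i) (φ i) ∧ (S i).ncard ≤ σ) →
    pr (fun θ : Fin d → Fin R => ∃ i ∈ I,
      δ < |pr (fun a : Fin q => φ i (st R P d (ext θ) a)) - pr (φ i)|) ≤ I.card * (1 / 4) ^ k

/-- **HSH.** Collisions of the hash functions.

Proof. `hs P e z v` is the value modulo the prime `P` at `z` of the polynomial of degree `< e` whose
coefficients are the binary digits of `v`. For `v ≠ v' < 2^e` the digits differ somewhere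
(`Nat.testBit`, `Nat.eq_of_testBit_eq`), so the difference of the two polynomials over `ZMod P` is
not zero (the coefficients are `0, ±1`), and has at most `e` roots in `ZMod P`. -/
def HshStmt : Prop := ∀ (P e v v' : ℕ), P.Prime → v < 2 ^ e → v' < 2 ^ e → v ≠ v' →
  Nat.card {z : Fin P // hs P e z v = hs P e z v'} ≤ e

/-- **INJ.** (May assume `HshStmt`.) Union bound over the pairs of different elements of `S`. -/
def InjStmt : Prop := ∀ (P e σ : ℕ), P.Prime → ∀ S : Set ℕ, (∀ v ∈ S, v < 2 ^ e) → S.Finite →
  S.ncard ≤ σ →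
  pr (fun z : Fin P => ¬ Set.InjOn (fun v => hs P e z v) S) ≤ (σ : ℝ) ^ 2 * e / P

/-- `θ` is good for the lists of width `t` and length `≤ s` over `P` variables. -/
def Good (R P d q t s : ℕ) (k δ : ℝ) (θ : ℕ → ℕ) : Prop :=
  ∀ g : DL (Fin P), Wid t g → g.length ≤ s →
    |pr (fun a : Fin q => lo t k g (st R P d θ a)) - pr (lo t k g)| ≤ δ ∧
    |pr (fun a : Fin q => hi t k g (st R P d θ a)) - pr (hi t k g)| ≤ δ

/-- **GOO.** Most `θ` are good. (May assume `GthStmt`, `DepStmt`, `CntStmt`.)

Proof. GTH for the family of the tests `lo t κ g`, `hi t κ g`, `g` in the finite set of CNT, with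
`S = vars g`, `|S| ≤ t * g.length ≤ t s = σ` (DEP). -/
def GooStmt : Prop := ∀ (R P d q k t s : ℕ) (κ δ : ℝ), R.Prime → 0 < q → q * P ≤ R →
  2 * k * (t * s) ≤ d → 0 < δ → 16 * (k : ℝ) ^ 2 ≤ q * δ ^ 2 → 2 * ((t * s : ℕ) : ℝ) ≤ δ * R →
  pr (fun θ : Fin d → Fin R => ¬ Good R P d q t s κ δ (ext θ)) ≤
    2 * (2 * (2 * (P : ℝ) + 1) ^ t + 1) ^ s * (1 / 4) ^ k

/-- **FOO.** For good coefficients the generator with the seeds `(a, z)` fools all decision lists of
width `t` with names `< 2^e`. (May assume `BrkStmt`, `BdpStmt`, `RnbStmt`, `DepStmt`, `InjStmt`.)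

Proof. Let `g` be the list of BRK for `f` (with `k = κ / 2^t`), `g.length ≤ (2/η)^t k^(-η) ≤ s`, so
`|vars g| ≤ t s`, and put `β = (s + 1) (κ^(1-η) (2/η)^t)`, so `pr (Bad t κ g) ≤ β` (BDP). For each
`z` let `π_z : Fin n → Fin P` be `v ↦ hs P e z v` (`< P`). By INJ (for the set of the values of
`vars g` in `ℕ`), `π_z` is injective on `vars g` but for a fraction `≤ (t s)² e / P` of the `z`.
For such a good `z`, by `Good` for `ren π_z g` and RNB (lengths and widths are kept),
`pr_a (hi g (st θ a ∘ π_z)) ≤ pr (hi g) + δ`. Note that `fun v => hb R P d θ a (hs P e z v)` is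
`st R P d θ a ∘ π_z`. Averaging over `z`,
`pr_(a,z) (ev f = true) ≤ pr_(a,z) (hi g) ≤ pr (hi g) + δ + (t s)² e / P`, and
`pr (hi g) ≤ pr (ev f = true) + pr (Bad)`: if `hi g x`, then `ev f x = true` or `Bad` holds (if
`ev g x = true` and not `Bad`, then `lo g x`). The lower bound is the same with `lo`:
`pr (ev f = true) ≤ pr (lo g) + pr (Bad)`. -/
def FooStmt : Prop := ∀ (R P d q t s e n : ℕ) (η κ δ : ℝ) (θ : ℕ → ℕ), P.Prime → 0 < q →
  0 < η → η ≤ 1 → 0 < κ → (2 / η) ^ t ≤ s * (κ / 2 ^ t) ^ η → n ≤ 2 ^ e → 0 ≤ δ →
  Good R P d q t s κ δ θ →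
  ∀ f : DL (Fin n), Wid t f →
    |pr (fun p : Fin q × Fin P =>
        ev f (fun v => hb R P d θ p.1 (hs P e p.2 v)) = true) - pr (fun x => ev f x = true)| ≤
      δ + ((t * s : ℕ) : ℝ) ^ 2 * e / P + (s + 1) * (κ ^ (1 - η) * (2 / η) ^ t)

/-- **HYB.** The hybrid argument.

Proof. For `j ≤ K` let
`a_j = av over (s, u) : (Fin K → S) × (Fin n → Bool)` of
`[ev f (fun v => if h v < j then G (s (h v)) v else u v) = true]`. Then `a_0 = pr (ev f = true)` and
`a_K` is the probability of the generator. `|a_(j+1) - a_j| ≤ δ`: fix all `s i`, `i ≠ j`, and all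
`u v` with `h v ≠ j` (Fubini), and let `f'` be the decision list which is obtained from `f` by
deleting the entries whose term has a literal `(v, b)`, `h v ≠ j`, which is not satisfied by the
fixed value at `v`, and by deleting in the terms of the others all literals with `h v ≠ j`. Then
`Wid t f'` by hypothesis, and for every `y : Fin n → Bool` the value of `f` at the assignment which
is fixed outside the part `j` and `y` on the part `j` is `ev f' y` (induction on `f`). In `a_(j+1)`
we have `y = G (s j)`, in `a_j` we have `y = u`. -/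
def HybStmt : Prop := ∀ (n K t : ℕ) (S : Type) [Fintype S] [Nonempty S] (G : S → Fin n → Bool)
  (δ : ℝ), 0 ≤ δ →
  (∀ f : DL (Fin n), Wid t f →
    |pr (fun s => ev f (G s) = true) - pr (fun x => ev f x = true)| ≤ δ) →
  ∀ (h : Fin n → Fin K) (f : DL (Fin n)),
    (∀ e ∈ f, ∀ j, (e.1.filter fun p => h p.1 = j).card ≤ t) →
    |pr (fun s : Fin K → S => ev f (fun v => G (s (h v)) v) = true) -
      pr (fun x => ev f x = true)| ≤ K * δ

/-- **BAL.** A set of at most `W` names is balanced for most partitions. (May assume `LagStmt`,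
`InjStmt`.)

Proof. For all but a fraction `W² e / P` of the values of `A 0`, the hash function
`v ↦ hs P e (A 0) v` is injective on `U` (INJ). Fix such an `A 0`. If more than `t` elements of `U`
are in the same part `j`, there is a subset `U'` of `t + 1` elements of `U` which are all in the
part `j`. By LAG (with `d = t + 1`, `R = P`) for each `U'` the values `pv P (t+1) (A (1), ...)` at
the `t + 1` different points are independent and uniform in `{0, ..., P-1}`; the number of the
`y < P` with `y % K = j` is at most `⌈P/K⌉ ≤ 2 P / K`, since `K ≤ P`. So for each `U'` and `j` the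
probability is at most `(2/K)^(t+1)`, and the sum over `j < K` and `U'` is at most
`(W choose (t+1)) 2^(t+1) / K^t`. (Separate the coordinate `A 0` with `Fin.consEquiv`.) -/
def BalStmt : Prop := ∀ (P K t e W : ℕ), P.Prime → 0 < K → K ≤ P →
  ∀ U : Finset ℕ, (∀ v ∈ U, v < 2 ^ e) → U.card ≤ W →
  pr (fun A : Fin (t + 2) → Fin P =>
      ∃ j < K, t < (U.filter fun v => pt P K t e (ext A) v = j).card) ≤
    (W : ℝ) ^ 2 * e / P + (W.choose (t + 1)) * 2 ^ (t + 1) / (K : ℝ) ^ t

end Pool.Agent.Helper78.DT
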