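import Pool.Agent.Helper78.DT.Goals

/-!
# KEY from EXT and ENC
-/

namespace Pool.Agent.Helper78.DT

theorem key (h1 : ExtStmt) (h2 : EncStmt) : KeyStmt := by
  intro V _ _ η t f h0 h3 h4
  exact (Finset.sum_le_sum fun i _ => h1 V η h0 h3 (First f i)).trans (h2 V η t f h0 h3 h4)

end Pool.Agent.Helper78.DT
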